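import Pool.Agent.H1.PN.Blk
import Pool.Agent.H57.LI.Defs

/-!
# H1/PN/Sw: sums of a Hecke character of small conductor over prime ideals (Siegel - Walfisz without exceptional zeros)

`sw`: for a ray class character of a totally complex field `E` of degree `n` with NONTRIVIAL SQUARE (for instance of odd order)
and conductor `log (disc N𝔣) ≤ (log x)^c`: `|∑_{N w ≤ x} ψ(w)| ≤ C x (log x)^(-A)`.
Proof: H1/PN/Abl, Up, Cv, Eu, Lw, Dv, Blk.
-/

set_option autoImplicit false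

open scoped NumberField
open NumberField IsDedekindDomain H63.MA H36.QA H57.AN Finset

noncomputable section

namespace H1.PN

variable {L : Type} [Field L] [NumberField L]

theorem pb_card (y : ℝ) (hy : 0 ≤ y) : ((PB L y).card : ℝ) ≤ Module.finrank ℚ L * y := by
  classical
  have h1 : (PB L y).card ≤ Module.finrank ℚ L * ((PB L y).image fun v => (nm v).minFac).card := by
    apply card_le_mul_card_image
    intro m _
    exact H57.LI.prk_fibre m _ fun v hv => (mem_filter.1 hv).2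
  have h2 : ((PB L y).image fun v => (nm v).minFac) ⊆ Icc 1 ⌊y⌋₊ := by
    intro m hm
    rw [mem_image] at hm
    obtain ⟨v, hv, hv'⟩ := hm
    rw [mem_PB] at hv
    rw [mem_Icc, ← hv']
    refine ⟨Nat.minFac_pos _, ?_⟩
    exact (Nat.minFac_le (by have := two_nm v; omega)).trans (Nat.le_floor hv)
  have h3 := card_le_card h2
  rw [Nat.card_Icc, Nat.add_sub_cancel] at h3
  have h4 : ((⌊y⌋₊ : ℕ) : ℝ) ≤ y := Nat.floor_le hy
  have h5 : ((PB L y).card : ℝ) ≤ Module.finrank ℚ L * (((PB L y).image fun v => (nm v).minFac).card : ℝ) := by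
    exact_mod_cast h1
  have h6 : (((PB L y).image fun v => (nm v).minFac).card : ℝ) ≤ ((⌊y⌋₊ : ℕ) : ℝ) := by exact_mod_cast h3
  exact h5.trans (mul_le_mul_of_nonneg_left (h6.trans h4) (Nat.cast_nonneg _))

/-- the sum of `χ(v) log (N v)` -/
def Pm (χ : Ideal (𝓞 L) → ℂ) (M : ℕ) : ℂ := ∑ v ∈ PB L M, χ v.asIdeal * ((Real.log (nm v) : ℝ) : ℂ)

theorem lam_le' (χ : Ideal (𝓞 L) → ℂ) (h1 : ∀ I, ‖χ I‖ ≤ 1) (M : ℕ) (hM : 1 ≤ M) :
    ‖∑ m ∈ Icc 1 M, lam χ m‖ ≤ Module.finrank ℚ L * (M * Real.log M) := by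
  refine (norm_sum_le _ _).trans ?_
  have h2 : ∀ m ∈ Icc 1 M, ‖lam χ m‖ ≤ Module.finrank ℚ L * Real.log M := by
    intro m hm
    rw [mem_Icc] at hm
    refine (lam_le χ h1 hm.1).trans (mul_le_mul_of_nonneg_left ?_ (Nat.cast_nonneg _))
    exact Real.log_le_log (by exact_mod_cast hm.1) (by exact_mod_cast hm.2)
  refine (sum_le_sum h2).trans (le_of_eq ?_)
  rw [sum_const, Nat.card_Icc, Nat.add_sub_cancel, nsmul_eq_mul]
  ring

theorem psi_th (χ : Ideal (𝓞 L) → ℂ) (h1 : ∀ I, ‖χ I‖ ≤ 1) (M : ℕ) (hM : 1 ≤ M) :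
    ‖∑ m ∈ Icc 1 M, lam χ m - Pm χ M‖ ≤ Module.finrank ℚ L * (Real.sqrt M * Real.log M) := by
  classical
  have hlM : 0 ≤ Real.log M := Real.log_natCast_nonneg M
  have e1 : ∑ m ∈ Icc 1 M, lam χ m = ∑ v ∈ PB L M, ∑ k ∈ Icc 1 M,
      if nm v ^ k ≤ M then χ v.asIdeal ^ k * ((Real.log (nm v) : ℝ) : ℂ) else 0 := by
    rw [sum_congr rfl fun m hm => lam_ext χ (mem_Icc.1 hm).2, sum_comm]
    refine sum_congr rfl fun v _ => ?_
    rw [sum_comm]
    refine sum_congr rfl fun k _ => ?_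
    rw [sum_ite_eq]
    have hpos : 0 < nm v ^ k := Nat.pow_pos (by have := two_nm v; omega)
    by_cases h : nm v ^ k ≤ M
    · rw [if_pos h, if_pos (mem_Icc.2 ⟨hpos, h⟩)]
    · rw [if_neg h, if_neg fun h' => h (mem_Icc.1 h').2]
  have e2 : ∑ m ∈ Icc 1 M, lam χ m - Pm χ M = ∑ v ∈ PB L M, ∑ k ∈ Icc 2 M,
      if nm v ^ k ≤ M then χ v.asIdeal ^ k * ((Real.log (nm v) : ℝ) : ℂ) else 0 := by
    rw [e1]
    unfold Pm
    rw [← sum_sub_distrib]
    refine sum_congr rfl fun v hv => ?_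
    rw [mem_PB] at hv
    have hv' : nm v ≤ M := by exact_mod_cast hv
    have e3 : Icc 1 M = insert 1 (Icc 2 M) := by
      ext x
      simp only [mem_Icc, mem_insert]
      omega
    have n1 : 1 ∉ Icc 2 M := by simp
    rw [e3, sum_insert n1, pow_one, if_pos hv', pow_one]
    ring
  rw [e2]
  have h3 : ∀ v ∈ PB L M, ‖∑ k ∈ Icc 2 M, (if nm v ^ k ≤ M then χ v.asIdeal ^ k * ((Real.log (nm v) : ℝ) : ℂ) else 0)‖ ≤
      if (nm v : ℝ) ≤ Real.sqrt M then Real.log M else 0 := by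
    intro v _
    have hv2 := two_nm v
    have hlv : 0 ≤ Real.log (nm v) := Real.log_natCast_nonneg _
    split_ifs with hs
    · have h4 : ∀ k ∈ Icc 2 M, ‖(if nm v ^ k ≤ M then χ v.asIdeal ^ k * ((Real.log (nm v) : ℝ) : ℂ) else 0)‖ ≤
          if nm v ^ k ≤ M then Real.log (nm v) else 0 := by
        intro k _
        split_ifs
        · rw [norm_mul, norm_pow, Complex.norm_real, Real.norm_of_nonneg hlv]
          exact mul_le_of_le_one_left hlv (pow_le_one₀ (norm_nonneg _) (h1 _))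
        · rw [norm_zero]
      refine (norm_sum_le _ _).trans ((sum_le_sum h4).trans ?_)
      rw [← sum_filter, sum_const, nsmul_eq_mul]
      have h5 : (Icc 2 M).filter (fun k => nm v ^ k ≤ M) ⊆ Icc 1 (Nat.log (nm v) M) := by
        intro k hk
        rw [mem_filter, mem_Icc] at hk
        rw [mem_Icc]
        exact ⟨by omega, Nat.le_log_of_pow_le (by omega) hk.2⟩
      have h6 := card_le_card h5
      rw [Nat.card_Icc, Nat.add_sub_cancel] at h6
      have h7 : nm v ^ Nat.log (nm v) M ≤ M := Nat.pow_log_le_self _ (by omega)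
      have h8 : (Nat.log (nm v) M : ℝ) * Real.log (nm v) ≤ Real.log M := by
        rw [← Real.log_pow]
        apply Real.log_le_log
        · have : 0 < nm v ^ Nat.log (nm v) M := Nat.pow_pos (by omega)
          exact_mod_cast this
        · exact_mod_cast h7
      refine le_trans ?_ h8
      exact mul_le_mul_of_nonneg_right (by exact_mod_cast h6) hlv
    · rw [sum_eq_zero, norm_zero]
      intro k hk
      rw [mem_Icc] at hk
      rw [if_neg]
      intro h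
      apply hs
      apply Real.le_sqrt_of_sq_le
      have h9 : nm v ^ 2 ≤ M := (Nat.pow_le_pow_right (by omega) hk.1).trans h
      exact_mod_cast h9
  refine (norm_sum_le _ _).trans ((sum_le_sum h3).trans ?_)
  rw [← sum_filter, sum_const, nsmul_eq_mul]
  have h10 : ((PB L M).filter fun v => (nm v : ℝ) ≤ Real.sqrt M).card ≤ (PB L (Real.sqrt M)).card := by
    apply card_le_card
    intro v hv
    rw [mem_filter] at hv
    rw [mem_PB]
    exact hv.2
  have h11 := pb_card (L := L) (Real.sqrt M) (Real.sqrt_nonneg _)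
  have h12 : (((PB L M).filter fun v => (nm v : ℝ) ≤ Real.sqrt M).card : ℝ) ≤ Module.finrank ℚ L * Real.sqrt M :=
    le_trans (by exact_mod_cast h10) h11
  calc _ ≤ Module.finrank ℚ L * Real.sqrt M * Real.log M := mul_le_mul_of_nonneg_right h12 hlM
    _ = _ := by ring

/-- partial summation: from `Pm` to the sum over the primes -/
theorem th_pi (χ : Ideal (𝓞 L) → ℂ) (X : ℕ) (hX : 1 ≤ X) {Q : ℝ} (hQ : 0 ≤ Q)
    (h : ∀ m : ℕ, 1 ≤ m → m ≤ X → ‖Pm χ m‖ ≤ Q) : ‖∑ v ∈ PB L X, χ v.asIdeal‖ ≤ 2 * Q := by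
  classical
  obtain ⟨a, ha⟩ : ∃ a : ℕ → ℂ, a = fun e => ∑ v ∈ (PB L X).filter (fun v => nm v = e),
    χ v.asIdeal * ((Real.log (nm v) : ℝ) : ℂ) := ⟨_, rfl⟩
  have hmap : ∀ m : ℕ, ∀ v ∈ PB L m, nm v ∈ Ioc 1 m := by
    intro m v hv
    rw [mem_PB] at hv
    rw [mem_Ioc]
    have := two_nm v
    exact ⟨by omega, by exact_mod_cast hv⟩
  have hpart : ∀ m, 1 ≤ m → m ≤ X → ∑ e ∈ Ioc 1 m, a e = Pm χ m := by
    intro m _ hm
    unfold Pm
    rw [← sum_fiberwise_of_maps_to (hmap m)]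
    refine sum_congr rfl fun e he => ?_
    rw [ha]
    rw [mem_Ioc] at he
    apply sum_congr _ fun _ _ => rfl
    ext v
    rw [mem_filter, mem_filter, mem_PB, mem_PB]
    constructor
    · rintro ⟨_, h2⟩
      refine ⟨?_, h2⟩
      rw [h2]
      exact_mod_cast he.2
    · rintro ⟨_, h2⟩
      refine ⟨?_, h2⟩
      rw [h2]
      exact_mod_cast he.2.trans hm
  have htot : ∑ v ∈ PB L X, χ v.asIdeal = ∑ e ∈ Ioc 1 X, a e * (((1 / Real.log e : ℝ)) : ℂ) := by
    rw [← sum_fiberwise_of_maps_to (hmap X)]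
    refine sum_congr rfl fun e he => ?_
    rw [mem_Ioc] at he
    rw [ha]
    show _ = (∑ v ∈ (PB L X).filter (fun v => nm v = e), χ v.asIdeal * ((Real.log (nm v) : ℝ) : ℂ)) * _
    rw [sum_mul]
    refine sum_congr rfl fun v hv => ?_
    rw [mem_filter] at hv
    have he1 : (1 : ℝ) < e := by exact_mod_cast he.1
    have h0 : ((Real.log e : ℝ) : ℂ) ≠ 0 := by exact_mod_cast (Real.log_pos he1).ne'
    rw [hv.2, Complex.ofReal_div, Complex.ofReal_one, mul_assoc, mul_one_div, div_self h0, mul_one]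
  rw [htot]
  have h2 := abr1 a (fun e => 1 / Real.log e) hX (E := Q)
    (fun m h1 h2 => by rw [hpart m h1 h2]; exact h m h1 h2) (by
      intro e he
      have he1 : (1 : ℝ) < e := by exact_mod_cast he
      apply one_div_le_one_div_of_le (Real.log_pos he1)
      apply Real.log_le_log (by linarith)
      push_cast
      linarith) (by
      intro e _
      have : 0 ≤ Real.log (e : ℝ) := Real.log_natCast_nonneg e
      positivity)
  refine h2.trans ?_
  have h3 : (1 : ℝ) / Real.log ((1 + 1 : ℕ) : ℝ) ≤ 2 := by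
    rw [div_le_iff₀]
    · have := Real.log_two_gt_d9
      push_cast
      norm_num
      linarith
    · apply Real.log_pos
      norm_num
  calc Q * (1 / Real.log ((1 + 1 : ℕ) : ℝ)) ≤ Q * 2 := mul_le_mul_of_nonneg_left h3 hQ
    _ = 2 * Q := by ring

/-- the exponent `c` does not depend on `A` -/
theorem sw' (n : ℕ) : ∃ c : ℝ, 0 < c ∧ c ≤ 1 ∧ ∀ A : ℕ, ∃ C : ℝ, 1 ≤ C ∧ ∀ (E : Type) [Field E] [NumberField E], TC E n →
    ∀ 𝔣 : Ideal (𝓞 E), 𝔣 ≠ ⊥ → ∀ ψ : RC E 𝔣, (∃ I, I ≠ ⊥ ∧ IsCoprime I 𝔣 ∧ ψ.χ I ^ 2 ≠ 1) →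
    ∀ x : ℝ, 3 ≤ x → Real.log (dd E * Ideal.absNorm 𝔣) ≤ Real.log x ^ c →
      ‖∑ w ∈ PB E x, ψ.χ w.asIdeal‖ ≤ C * x * Real.log x ^ (-(A : ℝ)) := by
  rcases Nat.eq_zero_or_pos n with hn | hn
  · refine ⟨1, one_pos, le_rfl, fun A => ⟨1, le_rfl, ?_⟩⟩
    intro E _ _ hE
    exfalso
    have h1 := hE.2
    rw [hn] at h1
    have h2 : 0 < Module.finrank ℚ E := Module.finrank_pos
    omega
  obtain ⟨B, hB, hblk⟩ := blk n hn
  obtain ⟨c, hc⟩ : ∃ c : ℝ, c = 1 / (4 * (B : ℝ)) := ⟨_, rfl⟩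
  have hBr : (1 : ℝ) ≤ B := by exact_mod_cast hB
  have hc0 : 0 < c := by
    rw [hc]
    positivity
  have hc1 : c ≤ 1 := by
    rw [hc, div_le_one (by linarith)]
    linarith
  refine ⟨c, hc0, hc1, fun A => ?_⟩
  obtain ⟨C1, hC1, hb⟩ := hblk A
  obtain ⟨C2, hC2⟩ : ∃ C2 : ℝ, C2 = (2 * (((A + 1 : ℕ) : ℝ) + 1)) ^ (A + 1) := ⟨_, rfl⟩
  have hC20 : 0 ≤ C2 := by
    rw [hC2]
    positivity
  have hn1 : (1 : ℝ) ≤ n := by exact_mod_cast hn
  refine ⟨1 + 2 * (22 * n * C2 + 2 * (C1 * 2 ^ A)), ?_, ?_⟩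
  · have : 0 ≤ 22 * n * C2 + 2 * (C1 * 2 ^ A) := by positivity
    linarith
  intro E _ _ hE 𝔣 h𝔣 ψ hψ x hx hcond
  have hψb := lbd_rc_norm_le ψ
  obtain ⟨l, hl⟩ : ∃ l : ℝ, l = Real.log x := ⟨_, rfl⟩
  rw [← hl] at hcond ⊢
  have hl1 : 1 ≤ l := by
    rw [hl, Real.le_log_iff_exp_le (by linarith)]
    exact Real.exp_one_lt_three.le.trans hx
  have hl0 : 0 < l := by linarith
  have hx0 : 0 < x := by linarith
  obtain ⟨r, hr⟩ : ∃ r : ℝ, r = Real.sqrt x := ⟨_, rfl⟩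
  have hrr : r * r = x := by
    rw [hr]
    exact Real.mul_self_sqrt hx0.le
  have hr0 : 0 < r := by
    rw [hr]
    exact Real.sqrt_pos.2 hx0
  have hr1 : 1.7 ≤ r := by
    rw [hr]
    apply Real.le_sqrt_of_sq_le
    norm_num
    linarith
  have hlr : Real.log r = l / 2 := by
    rw [hr, Real.log_sqrt hx0.le, hl]
  obtain ⟨K, hK⟩ : ∃ K : ℝ, K = C1 * 2 ^ A / l ^ A := ⟨_, rfl⟩
  have hK0 : 0 ≤ K := by
    rw [hK]
    positivity
  -- the blocks
  have hbl : ∀ N N' : ℕ, r ≤ N → 3 ≤ N → N ≤ N' → N' ≤ 2 * N →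
      ‖∑ m ∈ Ioc N N', lam (ψ.χ : Ideal (𝓞 E) → ℂ) m‖ ≤ K * N := by
    intro N N' hrN hN hNN hN2
    have hN0 : (3 : ℝ) ≤ N := by exact_mod_cast hN
    have h1 : l / 2 ≤ Real.log N := by
      rw [← hlr]
      exact Real.log_le_log hr0 hrN
    have h2 : l ^ c ≤ 2 * Real.log N ^ c := by
      have h3 : (l / 2) ^ c ≤ Real.log N ^ c := Real.rpow_le_rpow (by linarith) h1 hc0.le
      rw [Real.div_rpow hl0.le (by norm_num)] at h3
      have h4 : (2 : ℝ) ^ c ≤ 2 := by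
        calc (2 : ℝ) ^ c ≤ 2 ^ (1 : ℝ) := Real.rpow_le_rpow_of_exponent_le (by norm_num) hc1
          _ = 2 := Real.rpow_one 2
      have h5 : 0 < (2 : ℝ) ^ c := Real.rpow_pos_of_pos (by norm_num) _
      rw [div_le_iff₀ h5] at h3
      have h6 : 0 ≤ Real.log N ^ c := Real.rpow_nonneg (by linarith) _
      have h7 := mul_le_mul_of_nonneg_left h4 h6
      linarith
    have h3 := hb E hE 𝔣 h𝔣 ψ hψ N N' hN hNN hN2 (by
      rw [← hc]
      exact hcond.trans h2)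
    have h4 : (l / 2) ^ A ≤ Real.log N ^ A := pow_le_pow_left₀ (by linarith) h1 A
    have h5 : (l / 2) ^ A * ‖∑ m ∈ Ioc N N', lam (ψ.χ : Ideal (𝓞 E) → ℂ) m‖ ≤ C1 * N :=
      (mul_le_mul_of_nonneg_right h4 (norm_nonneg _)).trans h3
    rw [hK, div_mul_eq_mul_div, le_div_iff₀ (by positivity)]
    rw [div_pow, div_mul_eq_mul_div, div_le_iff₀ (by positivity)] at h5
    linarith
  -- the sums of `lam`
  obtain ⟨T0, hT0⟩ : ∃ T0 : ℝ, T0 = 21 * n * (r * l) := ⟨_, rfl⟩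
  have hT00 : 0 ≤ T0 := by
    rw [hT0]
    positivity
  have hS : ∀ M : ℕ, 1 ≤ M → ‖∑ m ∈ Icc 1 M, lam (ψ.χ : Ideal (𝓞 E) → ℂ) m‖ ≤ T0 + 2 * K * M := by
    intro M
    induction M using Nat.strong_induction_on with
    | _ M ih =>
      intro hM
      have hM0 : (1 : ℝ) ≤ M := by exact_mod_cast hM
      by_cases hsm : (M : ℝ) ≤ 7 * r
      · have h1 := lam_le' (ψ.χ : Ideal (𝓞 E) → ℂ) hψb M hM
        rw [hE.2] at h1
        refine h1.trans ?_
        have h2 : Real.log M ≤ 3 * l := by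
          have h3 : Real.log M ≤ Real.log (7 * r) := Real.log_le_log (by linarith) hsm
          rw [Real.log_mul (by norm_num) hr0.ne', hlr] at h3
          have h4 : Real.log 7 ≤ 2 := by
            rw [Real.log_le_iff_le_exp (by norm_num)]
            have h5 : Real.exp 2 = Real.exp 1 * Real.exp 1 := by
              rw [← Real.exp_add]
              norm_num
            have h6 := Real.exp_one_gt_d9
            rw [h5]
            nlinarith
          linarith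
        have h7 : 0 ≤ Real.log M := Real.log_nonneg hM0
        have h8 : (M : ℝ) * Real.log M ≤ 7 * r * (3 * l) := mul_le_mul hsm h2 h7 (by positivity)
        have h9 : (n : ℝ) * (M * Real.log M) ≤ n * (7 * r * (3 * l)) :=
          mul_le_mul_of_nonneg_left h8 (by linarith)
        have h10 : 0 ≤ 2 * K * M := by positivity
        rw [hT0]
        linarith
      · have hbig : 7 * r < M := not_le.1 hsm
        obtain ⟨N, hN⟩ : ∃ N : ℕ, N = (M + 1) / 2 := ⟨_, rfl⟩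
        have h12 : (12 : ℝ) ≤ M + 1 := by nlinarith
        have hM11 : 11 ≤ M := by
          have : (12 : ℝ) ≤ ((M + 1 : ℕ) : ℝ) := by push_cast; exact h12
          have := Nat.cast_le.1 (show ((12 : ℕ) : ℝ) ≤ ((M + 1 : ℕ) : ℝ) by exact_mod_cast this)
          omega
        have hN1 : 3 ≤ N := by omega
        have hN2 : M ≤ 2 * N := by omega
        have hN3 : 2 * N ≤ M + 1 := by omega
        have hN4 : N < M := by omega
        have hN2r : (M : ℝ) ≤ 2 * N := by exact_mod_cast hN2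
        have hN3r : 2 * (N : ℝ) ≤ M + 1 := by exact_mod_cast hN3
        have h1 := ih N hN4 (by omega)
        have h2 := hbl N M (by linarith) hN1 hN4.le hN2
        have e1 : ∑ m ∈ Icc 1 M, lam (ψ.χ : Ideal (𝓞 E) → ℂ) m =
            ∑ m ∈ Icc 1 N, lam (ψ.χ : Ideal (𝓞 E) → ℂ) m + ∑ m ∈ Ioc N M, lam (ψ.χ : Ideal (𝓞 E) → ℂ) m := by
          rw [← sum_union]
          · congr 1
            ext y
            simp only [mem_Icc, mem_union, mem_Ioc]
            omega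
          · rw [disjoint_left]
            intro y hy hy'
            rw [mem_Icc] at hy
            rw [mem_Ioc] at hy'
            omega
        rw [e1]
        have hMr : (11 : ℝ) ≤ M := by exact_mod_cast hM11
        calc _ ≤ (T0 + 2 * K * N) + K * N := (norm_add_le _ _).trans (add_le_add h1 h2)
          _ = T0 + K * (3 * N) := by ring
          _ ≤ T0 + K * (2 * M) := by
              have : 3 * (N : ℝ) ≤ 2 * M := by linarith
              have := mul_le_mul_of_nonneg_left this hK0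
              linarith
          _ = _ := by ring
  -- the sums over primes
  obtain ⟨X, hX⟩ : ∃ X : ℕ, X = ⌊x⌋₊ := ⟨_, rfl⟩
  have hX1 : 1 ≤ X := by
    rw [hX]
    exact Nat.le_floor (by push_cast; linarith)
  have hXx : (X : ℝ) ≤ x := by
    rw [hX]
    exact Nat.floor_le hx0.le
  have hPB : PB E x = PB E (X : ℝ) := by
    ext v
    rw [mem_PB, mem_PB, hX]
    constructor
    · intro h
      exact_mod_cast Nat.le_floor h
    · intro h
      exact h.trans (Nat.floor_le hx0.le)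
  rw [hPB]
  obtain ⟨Q, hQ⟩ : ∃ Q : ℝ, Q = T0 + 2 * K * x + n * (r * l) := ⟨_, rfl⟩
  have hQ0 : 0 ≤ Q := by
    rw [hQ]
    positivity
  have h1 := th_pi (ψ.χ : Ideal (𝓞 E) → ℂ) X hX1 hQ0 (by
    intro m hm hmX
    have hm0 : (1 : ℝ) ≤ m := by exact_mod_cast hm
    have hmx : (m : ℝ) ≤ x := (by exact_mod_cast hmX : (m : ℝ) ≤ X).trans hXx
    have h1 := hS m hm
    have h2 := psi_th (ψ.χ : Ideal (𝓞 E) → ℂ) hψb m hm
    rw [hE.2] at h2
    have h3 : Real.sqrt m * Real.log m ≤ r * l := by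
      rw [hr, hl]
      exact mul_le_mul (Real.sqrt_le_sqrt hmx) (Real.log_le_log (by linarith) hmx) (Real.log_nonneg hm0)
        (Real.sqrt_nonneg _)
    have h4 : (n : ℝ) * (Real.sqrt m * Real.log m) ≤ n * (r * l) := mul_le_mul_of_nonneg_left h3 (by linarith)
    have h5 : ‖Pm (ψ.χ : Ideal (𝓞 E) → ℂ) m‖ ≤ ‖∑ k ∈ Icc 1 m, lam (ψ.χ : Ideal (𝓞 E) → ℂ) k‖ +
        ‖∑ k ∈ Icc 1 m, lam (ψ.χ : Ideal (𝓞 E) → ℂ) k - Pm (ψ.χ : Ideal (𝓞 E) → ℂ) m‖ := by
      have := norm_sub_le (∑ k ∈ Icc 1 m, lam (ψ.χ : Ideal (𝓞 E) → ℂ) k)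
        (∑ k ∈ Icc 1 m, lam (ψ.χ : Ideal (𝓞 E) → ℂ) k - Pm (ψ.χ : Ideal (𝓞 E) → ℂ) m)
      rwa [sub_sub_cancel] at this
    have h6 : 2 * K * m ≤ 2 * K * x := mul_le_mul_of_nonneg_left hmx (by linarith)
    rw [hQ]
    linarith)
  refine h1.trans ?_
  -- the final bound
  have h2 : r * l ≤ C2 * x / l ^ A := by
    rw [le_div_iff₀ (by positivity)]
    have h3 := lgr (A + 1) (show (1 : ℝ) ≤ x by linarith)
    rw [← hl, ← hC2, ← Real.sqrt_eq_rpow, ← hr] at h3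
    calc r * l * l ^ A = r * l ^ (A + 1) := by ring
      _ ≤ r * (C2 * r) := mul_le_mul_of_nonneg_left h3 hr0.le
      _ = C2 * x := by rw [← hrr]; ring
  have h4 : l ^ (-(A : ℝ)) = 1 / l ^ A := by
    rw [Real.rpow_neg hl0.le, Real.rpow_natCast, one_div]
  have h5 : Q ≤ (22 * n * C2 + 2 * (C1 * 2 ^ A)) * (x / l ^ A) := by
    have h6 : (n : ℝ) * (r * l) ≤ n * (C2 * x / l ^ A) := mul_le_mul_of_nonneg_left h2 (by linarith)
    have h7 : 2 * K * x = 2 * (C1 * 2 ^ A) * (x / l ^ A) := by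
      rw [hK]
      ring
    have h8 : (n : ℝ) * (C2 * x / l ^ A) = n * C2 * (x / l ^ A) := by ring
    rw [hQ, hT0, h7]
    linarith
  rw [h4]
  have h9 : 0 ≤ x / l ^ A := by positivity
  calc 2 * Q ≤ 2 * ((22 * n * C2 + 2 * (C1 * 2 ^ A)) * (x / l ^ A)) := by linarith
    _ ≤ (1 + 2 * (22 * n * C2 + 2 * (C1 * 2 ^ A))) * (x / l ^ A) := by linarith
    _ = _ := by ring

theorem sw (n A : ℕ) : ∃ C c : ℝ, 1 ≤ C ∧ 0 < c ∧ ∀ (E : Type) [Field E] [NumberField E], TC E n →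
    ∀ 𝔣 : Ideal (𝓞 E), 𝔣 ≠ ⊥ → ∀ ψ : RC E 𝔣, (∃ I, I ≠ ⊥ ∧ IsCoprime I 𝔣 ∧ ψ.χ I ^ 2 ≠ 1) →
    ∀ x : ℝ, 3 ≤ x → Real.log (dd E * Ideal.absNorm 𝔣) ≤ Real.log x ^ c →
      ‖∑ w ∈ PB E x, ψ.χ w.asIdeal‖ ≤ C * x * Real.log x ^ (-(A : ℝ)) := by
  obtain ⟨c, hc, _, h⟩ := sw' n
  obtain ⟨C, hC, h'⟩ := h A
  exact ⟨C, c, hC, hc, h'⟩

end H1.PN
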