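import Pool.Agent.H1.PN.Eu
import Pool.Agent.H1.LS4.Nch

/-!
# H1/PN/Lw: lower bound for Hecke L-series to the right of `1` (characters with nontrivial square)

`low`: `1 ≤ C el^B |L(s, χ)|` for `1 < Re s ≤ 2`, by `ζ(σ)^3 |L(σ + it, χ)|^4 |L(σ + 2it, χ^2)| ≥ c` and the bound for `L'`.
-/

set_option autoImplicit false

open scoped NumberField
open NumberField IsDedekindDomain H63.MA H36.QA Finset
open scoped Classical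

noncomputable section

namespace H1.PN

variable {L : Type} [Field L] [NumberField L]

/-- the square of the character is nontrivial -/
def Sq2 {𝔣 : Ideal (𝓞 L)} (χ : RC L 𝔣) : Prop :=
  ∃ I, I ≠ ⊥ ∧ IsCoprime I 𝔣 ∧ χ.χ I ^ 2 ≠ 1

theorem Sq2.non {𝔣 : Ideal (𝓞 L)} {χ : RC L 𝔣} (h : Sq2 χ) : χ.Non := by
  obtain ⟨I, h1, h2, h3⟩ := h
  refine ⟨I, h1, h2, fun h4 => h3 ?_⟩
  rw [h4, one_pow]

/-- the twist by `N(I)^(-it)` -/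
def tw (χ : Ideal (𝓞 L) →*₀ ℂ) (t : ℝ) : Ideal (𝓞 L) →*₀ ℂ where
  toFun I := χ I * (Ideal.absNorm I : ℂ) ^ (-((t : ℂ) * Complex.I))
  map_zero' := by rw [map_zero, zero_mul]
  map_one' := by
    rw [map_one, map_one, Nat.cast_one, Complex.one_cpow, mul_one]
  map_mul' I J := by
    rw [map_mul, map_mul, Nat.cast_mul, Complex.natCast_mul_natCast_cpow]
    ring

theorem tw_apply (χ : Ideal (𝓞 L) →*₀ ℂ) (t : ℝ) (I : Ideal (𝓞 L)) :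
    tw χ t I = χ I * (Ideal.absNorm I : ℂ) ^ (-((t : ℂ) * Complex.I)) := rfl

theorem tw_norm (χ : Ideal (𝓞 L) →*₀ ℂ) (h : ∀ I, ‖χ I‖ ≤ 1) (t : ℝ) (I : Ideal (𝓞 L)) : ‖tw χ t I‖ ≤ 1 := by
  by_cases hI : I = ⊥
  · rw [hI]
    have : tw χ t (⊥ : Ideal (𝓞 L)) = 0 := map_zero (tw χ t)
    rw [this, norm_zero]
    exact zero_le_one
  · have h1 : Ideal.absNorm I ≠ 0 := by
      rw [Ne, Ideal.absNorm_eq_zero_iff]
      exact hI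
    rw [tw_apply, norm_mul, Complex.norm_natCast_cpow_of_pos (by omega)]
    have h2 : (-((t : ℂ) * Complex.I)).re = 0 := by simp
    rw [h2, Real.rpow_zero, mul_one]
    exact h I

theorem tw_lb (χ : Ideal (𝓞 L) →*₀ ℂ) (t : ℝ) (n : ℕ) :
    lbf (tw χ t) n = lbf χ n * (n : ℂ) ^ (-((t : ℂ) * Complex.I)) := by
  unfold lbf
  rw [sum_mul]
  refine sum_congr rfl fun I hI => ?_
  rw [lbf_mem] at hI
  rw [tw_apply, hI]

theorem tw_ser (χ : Ideal (𝓞 L) →*₀ ℂ) (h : ∀ I, ‖χ I‖ ≤ 1) (t : ℝ) {σ : ℝ} (hσ : 1 < σ) :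
    Lser (tw χ t) σ = LSeries (lbf χ) ((σ : ℂ) + (t : ℂ) * Complex.I) := by
  rw [lbd_lser_eq (tw χ t) (map_zero (tw χ t)) (tw_norm χ h t) hσ]
  unfold LSeries
  refine tsum_congr fun n => ?_
  rcases Nat.eq_zero_or_pos n with hn | hn
  · rw [hn, LSeries.term_zero, LSeries.term_zero]
  · rw [LSeries.term_of_ne_zero (by omega), LSeries.term_of_ne_zero (by omega), tw_lb,
      Complex.cpow_add _ _ (by exact_mod_cast (by omega : n ≠ 0)), Complex.cpow_neg]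
    field_simp

theorem el_dbl (𝔣 : Ideal (𝓞 L)) (h𝔣 : 𝔣 ≠ ⊥) (t : ℝ) : el L 𝔣 (2 * t) ≤ 2 * el L 𝔣 t := by
  obtain ⟨h1, h2, h3, h4⟩ := el_two 𝔣 h𝔣 t
  have h5 : Real.log (2 + |2 * t|) ≤ Real.log (2 * (2 + |t|)) := by
    apply Real.log_le_log (by linarith [abs_nonneg (2 * t)])
    rw [abs_mul, abs_two]
    linarith
  rw [Real.log_mul (by norm_num) (by linarith [abs_nonneg t])] at h5
  have h6 := Real.log_two_lt_d9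
  unfold el at *
  linarith

theorem e341 (n : ℕ) (hn : 0 < n) : ∃ (C : ℝ) (A : ℕ), 1 ≤ C ∧ ∀ (L : Type) [Field L] [NumberField L], TC L n →
    ∀ 𝔣 : Ideal (𝓞 L), 𝔣 ≠ ⊥ → ∀ χ : RC L 𝔣, Sq2 χ → ∀ s : ℂ, 1 < s.re → s.re ≤ 2 →
      (s.re - 1) ^ 3 ≤ C * el L 𝔣 s.im ^ A * ‖LSeries (lbf χ.χ) s‖ ^ 4 := by
  obtain ⟨C0, hC0, heul⟩ := eul2 n
  obtain ⟨C1, A1, hC1, hz⟩ := zub n hn
  obtain ⟨A2, hA2⟩ := up n hn
  obtain ⟨C2, hC2, hup⟩ := hA2 0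
  refine ⟨C0 ^ 8 * C1 ^ 3 * (C2 * 2 ^ A2), 3 * A1 + A2, ?_, ?_⟩
  · have h1 : 1 ≤ C0 ^ 8 := one_le_pow₀ hC0
    have h2 : 1 ≤ C1 ^ 3 := one_le_pow₀ hC1
    have h3 : (1 : ℝ) ≤ 2 ^ A2 := one_le_pow₀ (by norm_num)
    exact one_le_mul_of_one_le_of_one_le (one_le_mul_of_one_le_of_one_le h1 h2)
      (one_le_mul_of_one_le_of_one_le hC2 h3)
  intro L _ _ hL 𝔣 h𝔣 χ hχ s hs hs2
  obtain ⟨ψ, hψ⟩ := H1.LS4.rcml χ χ
  have hψN : ψ.Non := by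
    obtain ⟨I, h1, h2, h3⟩ := hχ
    refine ⟨I, h1, h2, ?_⟩
    rw [hψ, ← sq]
    exact h3
  obtain ⟨σ, hσ⟩ : ∃ σ : ℝ, σ = s.re := ⟨_, rfl⟩
  obtain ⟨t, ht⟩ : ∃ t : ℝ, t = s.im := ⟨_, rfl⟩
  have hse : s = (σ : ℂ) + (t : ℂ) * Complex.I := by
    rw [hσ, ht, Complex.re_add_im]
  rw [← hσ] at hs hs2 ⊢
  rw [← ht]
  have hbχ := lbd_rc_norm_le χ
  have hbψ := lbd_rc_norm_le ψ
  have hfin : Module.finrank ℚ L = n := hL.2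
  have b0 := (heul L hfin (lbd_triv L) lbd_triv_norm σ hs hs2).2
  have b1 := (heul L hfin (tw χ.χ t) (tw_norm χ.χ hbχ t) σ hs hs2).2
  have b2 := (heul L hfin (tw ψ.χ (2 * t)) (tw_norm ψ.χ hbψ (2 * t)) σ hs hs2).2
  rw [tw_ser χ.χ hbχ t hs, ← hse] at b1
  obtain ⟨R0, hR0⟩ : ∃ R : ℝ, R = ∑' v : Pl L, (lbd_triv L v.asIdeal).re * (nm v : ℝ) ^ (-σ) := ⟨_, rfl⟩
  obtain ⟨R1, hR1⟩ : ∃ R : ℝ, R = ∑' v : Pl L, (tw χ.χ t v.asIdeal).re * (nm v : ℝ) ^ (-σ) := ⟨_, rfl⟩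
  obtain ⟨R2, hR2⟩ : ∃ R : ℝ, R = ∑' v : Pl L, (tw ψ.χ (2 * t) v.asIdeal).re * (nm v : ℝ) ^ (-σ) := ⟨_, rfl⟩
  rw [← hR0] at b0
  rw [← hR1] at b1
  rw [← hR2] at b2
  have hs1 : ∀ f : Ideal (𝓞 L) → ℂ, (∀ I, ‖f I‖ ≤ 1) →
      Summable fun v : Pl L => (f v.asIdeal).re * (nm v : ℝ) ^ (-σ) := by
    intro f hf
    apply Summable.of_norm_bounded (pz_summable L hs)
    intro v
    rw [norm_mul, Real.norm_of_nonneg (Real.rpow_nonneg (Nat.cast_nonneg _) _)]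
    exact mul_le_of_le_one_left (Real.rpow_nonneg (Nat.cast_nonneg _) _)
      ((Complex.abs_re_le_norm _).trans (hf _))
  have s0 := hs1 (lbd_triv L) lbd_triv_norm
  have s1 := hs1 (tw χ.χ t) (tw_norm χ.χ hbχ t)
  have s2 := hs1 (tw ψ.χ (2 * t)) (tw_norm ψ.χ hbψ (2 * t))
  have hpos : 0 ≤ 3 * R0 + 4 * R1 + R2 := by
    rw [hR0, hR1, hR2, ← tsum_mul_left, ← tsum_mul_left, ← (s0.mul_left 3).tsum_add (s1.mul_left 4),
      ← ((s0.mul_left 3).add (s1.mul_left 4)).tsum_add s2]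
    refine tsum_nonneg fun v => ?_
    have h1 : lbd_triv L v.asIdeal = 1 := if_neg v.ne_bot
    have h2 : tw ψ.χ (2 * t) v.asIdeal = tw χ.χ t v.asIdeal ^ 2 := by
      rw [tw_apply, tw_apply, hψ, mul_pow, ← Complex.cpow_nat_mul]
      congr 1
      · ring
      · congr 1
        push_cast
        ring
    have h3 := tw_norm χ.χ hbχ t v.asIdeal
    obtain ⟨z, hz⟩ : ∃ z : ℂ, z = tw χ.χ t v.asIdeal := ⟨_, rfl⟩
    rw [h1, h2, ← hz, Complex.one_re]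
    rw [← hz] at h3
    have h4 : (z ^ 2).re = z.re ^ 2 - z.im ^ 2 := by
      rw [sq, Complex.mul_re]
      ring
    have h5 : z.re ^ 2 + z.im ^ 2 ≤ 1 := by
      have h6 : ‖z‖ ^ 2 ≤ 1 := pow_le_one₀ (norm_nonneg _) h3
      rw [← Complex.normSq_eq_norm_sq, Complex.normSq_apply] at h6
      linarith
    rw [h4]
    have h7 : 0 ≤ (nm v : ℝ) ^ (-σ) := Real.rpow_nonneg (Nat.cast_nonneg _) _
    have h8 : 3 * (1 * (nm v : ℝ) ^ (-σ)) + 4 * (z.re * (nm v : ℝ) ^ (-σ)) +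
        (z.re ^ 2 - z.im ^ 2) * (nm v : ℝ) ^ (-σ) =
        (2 * (1 + z.re) ^ 2 + (1 - (z.re ^ 2 + z.im ^ 2))) * (nm v : ℝ) ^ (-σ) := by ring
    rw [h8]
    exact mul_nonneg (by nlinarith [sq_nonneg (1 + z.re)]) h7
  -- the product
  obtain ⟨x0, hx0⟩ : ∃ x : ℝ, x = ‖Lser (lbd_triv L) σ‖ := ⟨_, rfl⟩
  obtain ⟨x1, hx1⟩ : ∃ x : ℝ, x = ‖LSeries (lbf χ.χ) s‖ := ⟨_, rfl⟩
  obtain ⟨x2, hx2⟩ : ∃ x : ℝ, x = ‖Lser (tw ψ.χ (2 * t)) σ‖ := ⟨_, rfl⟩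
  rw [← hx0] at b0
  rw [← hx1] at b1 ⊢
  rw [← hx2] at b2
  have n0 : 0 ≤ x0 := hx0 ▸ norm_nonneg _
  have n1 : 0 ≤ x1 := hx1 ▸ norm_nonneg _
  have n2 : 0 ≤ x2 := hx2 ▸ norm_nonneg _
  have hC00 : 0 ≤ C0 := by linarith
  have hprod : 1 ≤ C0 ^ 8 * (x0 ^ 3 * x1 ^ 4 * x2) := by
    calc (1 : ℝ) ≤ Real.exp (3 * R0 + 4 * R1 + R2) := Real.one_le_exp hpos
      _ = Real.exp R0 ^ 3 * Real.exp R1 ^ 4 * Real.exp R2 := by
          rw [← Real.exp_nat_mul, ← Real.exp_nat_mul, ← Real.exp_add, ← Real.exp_add]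
          norm_num
      _ ≤ (C0 * x0) ^ 3 * (C0 * x1) ^ 4 * (C0 * x2) := by
          gcongr
      _ = _ := by ring
  have hz' : x0 * (σ - 1) ≤ C1 * (1 + Real.log (dd L)) ^ A1 := by
    have := hz L hL σ hs hs2
    rw [← hx0, le_div_iff₀ (by linarith)] at this
    exact this
  obtain ⟨hℓ2, hl1, hl2, hl3⟩ := el_two 𝔣 h𝔣 t
  obtain ⟨ℓ, hℓ⟩ : ∃ ℓ : ℝ, ℓ = el L 𝔣 t := ⟨_, rfl⟩
  rw [← hℓ] at hℓ2 ⊢
  have hz2 : x0 * (σ - 1) ≤ C1 * ℓ ^ A1 := by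
    refine hz'.trans ?_
    apply mul_le_mul_of_nonneg_left _ (by linarith)
    apply pow_le_pow_left₀ (by linarith)
    rw [hℓ]
    unfold el
    linarith
  have hx2' : x2 ≤ C2 * (2 * ℓ) ^ A2 := by
    rw [hx2, tw_ser ψ.χ hbψ (2 * t) hs]
    have h1 := hup L hL 𝔣 h𝔣 ψ hψN ((σ : ℂ) + ((2 * t : ℝ) : ℂ) * Complex.I) (by simpa using hs) (by simpa using hs2)
    rw [pw_zero, zero_add] at h1
    refine h1.trans ?_
    apply mul_le_mul_of_nonneg_left _ (by linarith)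
    have e : ((σ : ℂ) + ((2 * t : ℝ) : ℂ) * Complex.I).im = 2 * t := by simp
    rw [e]
    apply pow_le_pow_left₀
    · linarith [(el_two 𝔣 h𝔣 (2 * t)).1]
    · rw [hℓ]
      exact el_dbl 𝔣 h𝔣 t
  have hκ : 0 < σ - 1 := by linarith
  calc (σ - 1) ^ 3 = (σ - 1) ^ 3 * 1 := (mul_one _).symm
    _ ≤ (σ - 1) ^ 3 * (C0 ^ 8 * (x0 ^ 3 * x1 ^ 4 * x2)) :=
        mul_le_mul_of_nonneg_left hprod (by positivity)
    _ = C0 ^ 8 * (x0 * (σ - 1)) ^ 3 * x2 * x1 ^ 4 := by ring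
    _ ≤ C0 ^ 8 * (C1 * ℓ ^ A1) ^ 3 * (C2 * (2 * ℓ) ^ A2) * x1 ^ 4 := by
        gcongr
    _ = C0 ^ 8 * C1 ^ 3 * (C2 * 2 ^ A2) * ℓ ^ (3 * A1 + A2) * x1 ^ 4 := by
        rw [mul_pow, mul_pow]
        ring

theorem ser_mv (χ : Ideal (𝓞 L) → ℂ) (h0 : χ ⊥ = 0) (h1 : ∀ I, ‖χ I‖ ≤ 1) {a b t D : ℝ} (ha : 1 < a) (hab : a ≤ b)
    (hD : ∀ x : ℝ, a ≤ x → x ≤ b → ‖LSeries (pw 1 (lbf χ)) ((x : ℂ) + (t : ℂ) * Complex.I)‖ ≤ D) :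
    ‖LSeries (lbf χ) ((b : ℂ) + (t : ℂ) * Complex.I) - LSeries (lbf χ) ((a : ℂ) + (t : ℂ) * Complex.I)‖ ≤
      D * (b - a) := by
  have hder : ∀ x ∈ Set.Icc a b, HasDerivWithinAt (fun x : ℝ => LSeries (lbf χ) ((x : ℂ) + (t : ℂ) * Complex.I))
      (-LSeries (pw 1 (lbf χ)) ((x : ℂ) + (t : ℂ) * Complex.I)) (Set.Icc a b) x := by
    intro x hx
    have h2 : LSeries.abscissaOfAbsConv (lbf χ) < (((x : ℂ) + (t : ℂ) * Complex.I).re : EReal) := by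
      refine (lb_abs χ h0 h1).trans_lt ?_
      have h3 : ((x : ℂ) + (t : ℂ) * Complex.I).re = x := by simp
      rw [h3]
      exact_mod_cast ha.trans_le hx.1
    have h3 := LSeries_hasDerivAt h2
    have e : pw 1 (lbf χ) = LSeries.logMul (lbf χ) := by
      rw [pw_iter]
      rfl
    rw [← e] at h3
    have h4 : HasDerivAt (fun z : ℂ => z + (t : ℂ) * Complex.I) 1 (x : ℂ) := (hasDerivAt_id (x : ℂ)).add_const _
    have h5 := HasDerivAt.comp (x : ℂ) h3 h4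
    rw [mul_one] at h5
    exact h5.comp_ofReal.hasDerivWithinAt
  have key := (convex_Icc a b).norm_image_sub_le_of_norm_hasDerivWithin_le hder
    (fun x hx => by rw [norm_neg]; exact hD x hx.1 hx.2) ⟨le_rfl, hab⟩ ⟨hab, le_rfl⟩
  rwa [Real.norm_of_nonneg (by linarith)] at key

theorem low (n : ℕ) (hn : 0 < n) : ∃ (C : ℝ) (B : ℕ), 1 ≤ C ∧ ∀ (L : Type) [Field L] [NumberField L], TC L n →
    ∀ 𝔣 : Ideal (𝓞 L), 𝔣 ≠ ⊥ → ∀ χ : RC L 𝔣, Sq2 χ → ∀ s : ℂ, 1 < s.re → s.re ≤ 2 →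
      1 ≤ C * el L 𝔣 s.im ^ B * ‖LSeries (lbf χ.χ) s‖ := by
  obtain ⟨C3, A3, hC3, h341⟩ := e341 n hn
  obtain ⟨A2, hA2⟩ := up n hn
  obtain ⟨C4, hC4, hup⟩ := hA2 1
  obtain ⟨A', hA'⟩ : ∃ A' : ℕ, A' = 1 + A2 := ⟨_, rfl⟩
  rw [← hA'] at hup
  obtain ⟨C5, hC5⟩ : ∃ C5 : ℝ, C5 = 16 * C3 * C4 ^ 4 := ⟨_, rfl⟩
  have hC51 : 1 ≤ C5 := by
    have h1 : 1 ≤ C4 ^ 4 := one_le_pow₀ hC4
    rw [hC5]
    nlinarith
  obtain ⟨E, hE⟩ : ∃ E : ℕ, E = A3 + 4 * A' := ⟨_, rfl⟩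
  obtain ⟨C6, hC6⟩ : ∃ C6 : ℝ, C6 = C5 ^ 3 * C3 := ⟨_, rfl⟩
  have hC61 : 1 ≤ C6 := by
    rw [hC6]
    exact one_le_mul_of_one_le_of_one_le (one_le_pow₀ hC51) hC3
  refine ⟨2 * C6, E, by linarith, ?_⟩
  intro L _ _ hL 𝔣 h𝔣 χ hχ s hs hs2
  obtain ⟨hℓ2, -, -, -⟩ := el_two 𝔣 h𝔣 s.im
  obtain ⟨ℓ, hℓ⟩ : ∃ ℓ : ℝ, ℓ = el L 𝔣 s.im := ⟨_, rfl⟩
  rw [← hℓ] at hℓ2 ⊢
  have hℓ1 : 1 ≤ ℓ := by linarith
  have hℓ0 : 0 < ℓ := by linarith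
  obtain ⟨κ, hκ⟩ : ∃ κ : ℝ, κ = 1 / (C5 * ℓ ^ E) := ⟨_, rfl⟩
  have hden : 1 ≤ C5 * ℓ ^ E := one_le_mul_of_one_le_of_one_le hC51 (one_le_pow₀ hℓ1)
  have hκ0 : 0 < κ := by
    rw [hκ]
    positivity
  have hκ1 : κ ≤ 1 := by
    rw [hκ, div_le_one (by linarith)]
    exact hden
  have hκe : κ * (C5 * ℓ ^ E) = 1 := by
    rw [hκ]
    field_simp
  -- at distance at least `κ`
  have hfar : ∀ y : ℂ, 1 + κ ≤ y.re → y.re ≤ 2 → y.im = s.im →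
      κ ^ 3 ≤ C3 * ℓ ^ A3 * ‖LSeries (lbf χ.χ) y‖ ^ 4 := by
    intro y hy hy2 hyi
    have h1 := h341 L hL 𝔣 h𝔣 χ hχ y (by linarith) hy2
    rw [hyi, ← hℓ] at h1
    exact (pow_le_pow_left₀ hκ0.le (by linarith) 3).trans h1
  have hroot : ∀ y : ℂ, κ ^ 3 ≤ C3 * ℓ ^ A3 * ‖LSeries (lbf χ.χ) y‖ ^ 4 →
      1 / (C6 * ℓ ^ E) ≤ ‖LSeries (lbf χ.χ) y‖ := by
    intro y hy
    have h1 : (1 / (C6 * ℓ ^ E)) ^ 4 ≤ ‖LSeries (lbf χ.χ) y‖ ^ 4 := by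
      have h2 : κ ^ 3 / (C3 * ℓ ^ A3) ≤ ‖LSeries (lbf χ.χ) y‖ ^ 4 := by
        rw [div_le_iff₀ (by positivity), mul_comm]
        exact hy
      refine le_trans ?_ h2
      rw [div_pow, one_pow, hκ, div_pow, one_pow, div_div]
      apply one_div_le_one_div_of_le (by positivity)
      calc (C5 * ℓ ^ E) ^ 3 * (C3 * ℓ ^ A3) = C6 * ℓ ^ (3 * E + A3) := by
            rw [hC6]
            ring
        _ ≤ C6 ^ 4 * ℓ ^ (E * 4) := by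
            apply mul_le_mul _ _ (by positivity) (by positivity)
            · exact le_self_pow₀ hC61 (by norm_num)
            · exact pow_le_pow_right₀ hℓ1 (by omega)
        _ = (C6 * ℓ ^ E) ^ 4 := by ring
    exact (pow_le_pow_iff_left₀ (by positivity) (norm_nonneg _) (by norm_num)).1 h1
  have hfin : ∀ x : ℝ, 1 / (C6 * ℓ ^ E) ≤ 2 * x → 1 ≤ 2 * C6 * ℓ ^ E * x := by
    intro x hx
    rw [div_le_iff₀ (by positivity)] at hx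
    linarith
  by_cases hcase : 1 + κ ≤ s.re
  · have h1 := hroot s (hfar s hcase hs2 rfl)
    exact hfin _ (by linarith [norm_nonneg (LSeries (lbf χ.χ) s)])
  · have hcase' : s.re < 1 + κ := not_le.1 hcase
    obtain ⟨y, hy⟩ : ∃ y : ℂ, y = ((1 + κ : ℝ) : ℂ) + (s.im : ℂ) * Complex.I := ⟨_, rfl⟩
    have hyre : y.re = 1 + κ := by
      rw [hy]
      simp
    have hyim : y.im = s.im := by
      rw [hy]
      simp
    have h1 := hfar y (by rw [hyre]) (by rw [hyre]; linarith) hyim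
    have h2 := hroot y h1
    obtain ⟨D, hD⟩ : ∃ D : ℝ, D = C4 * ℓ ^ A' := ⟨_, rfl⟩
    have hD0 : 0 < D := by
      rw [hD]
      positivity
    have h3 : 2 * (κ * D) ≤ ‖LSeries (lbf χ.χ) y‖ := by
      have h4 : (2 * (κ * D)) ^ 4 ≤ ‖LSeries (lbf χ.χ) y‖ ^ 4 := by
        have h5 : κ ^ 3 / (C3 * ℓ ^ A3) ≤ ‖LSeries (lbf χ.χ) y‖ ^ 4 := by
          rw [div_le_iff₀ (by positivity), mul_comm]
          exact h1
        refine le_trans ?_ h5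
        rw [le_div_iff₀ (by positivity)]
        have h6 : (2 * (κ * D)) ^ 4 * (C3 * ℓ ^ A3) = κ ^ 3 * (κ * (C5 * ℓ ^ E)) := by
          rw [hD, hC5, hE]
          ring
        rw [h6, hκe, mul_one]
      exact (pow_le_pow_iff_left₀ (by positivity) (norm_nonneg _) (by norm_num)).1 h4
    have h7 := ser_mv (χ.χ : Ideal (𝓞 L) → ℂ) (map_zero χ.χ) (lbd_rc_norm_le χ) (a := s.re) (b := 1 + κ)
      (t := s.im) (D := D) hs hcase'.le (by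
        intro x hx1 hx2
        have h8 := hup L hL 𝔣 h𝔣 χ hχ.non ((x : ℂ) + (s.im : ℂ) * Complex.I) (by simpa using hs.trans_le hx1)
          (by simpa using hx2.trans (by linarith))
        have e : ((x : ℂ) + (s.im : ℂ) * Complex.I).im = s.im := by simp
        rw [e, ← hℓ, ← hD] at h8
        exact h8)
    rw [← hy, Complex.re_add_im] at h7
    have h8 : ‖LSeries (lbf χ.χ) y‖ ≤ ‖LSeries (lbf χ.χ) s‖ + D * (1 + κ - s.re) := by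
      have := norm_le_norm_sub_add (LSeries (lbf χ.χ) y) (LSeries (lbf χ.χ) s)
      linarith
    have h9 : D * (1 + κ - s.re) ≤ κ * D := by
      rw [mul_comm κ D]
      exact mul_le_mul_of_nonneg_left (by linarith) hD0.le
    exact hfin _ (by linarith)

end H1.PN
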