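import Mathlib

/-!
# H1/PN/Abl: Abel summation against `(log n)^k n^(-s)`

`tail`: if `|∑_{n ≤ x} a n| ≤ Q x^(1-δ)` then `|∑_{N < n ≤ M} a n (log n)^k n^(-s)| ≤ C Q (1 + |s|) N^(-δ/2)` for `Re s ≥ 1`.
-/

set_option autoImplicit false

noncomputable section

namespace H1.PN

open Finset

/-- the weight `(log x)^k x^(-s)` -/
def wt (k : ℕ) (s : ℂ) (x : ℝ) : ℂ := ((Real.log x ^ k : ℝ) : ℂ) * (x : ℂ) ^ (-s)

theorem abl {R : Type} [CommRing R] (a g : ℕ → R) {N M : ℕ} (h : N ≤ M) :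
    ∑ n ∈ Ioc N M, a n * g n = (∑ k ∈ Icc 1 M, a k) * g (M + 1) - (∑ k ∈ Icc 1 N, a k) * g (N + 1) -
      ∑ n ∈ Ioc N M, (∑ k ∈ Icc 1 n, a k) * (g (n + 1) - g n) := by
  induction M, h using Nat.le_induction with
  | base => simp
  | succ M hM ih =>
    have e1 : Ioc N (M + 1) = insert (M + 1) (Ioc N M) := by
      ext x
      simp only [mem_Ioc, mem_insert]
      omega
    have e2 : Icc 1 (M + 1) = insert (M + 1) (Icc 1 M) := by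
      ext x
      simp only [mem_Icc, mem_insert]
      omega
    have n1 : M + 1 ∉ Ioc N M := by simp
    have n2 : M + 1 ∉ Icc 1 M := by simp
    rw [e1, sum_insert n1, sum_insert n1, ih, e2, sum_insert n2]
    ring

theorem wt_norm (k : ℕ) {s : ℂ} (hs : 1 ≤ s.re) {x : ℝ} (hx : 1 ≤ x) :
    ‖wt k s x‖ ≤ Real.log x ^ k / x := by
  have h0 : 0 ≤ Real.log x := Real.log_nonneg hx
  unfold wt
  rw [norm_mul, Complex.norm_real, Real.norm_of_nonneg (by positivity),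
    Complex.norm_cpow_eq_rpow_re_of_pos (by linarith), Complex.neg_re, div_eq_mul_inv,
    ← Real.rpow_neg_one x]
  exact mul_le_mul_of_nonneg_left (Real.rpow_le_rpow_of_exponent_le hx (by linarith)) (by positivity)

theorem wt_der (k : ℕ) (s : ℂ) {x : ℝ} (hx : 0 < x) :
    HasDerivAt (wt k s) (((k * Real.log x ^ (k - 1) * x⁻¹ : ℝ) : ℂ) * (x : ℂ) ^ (-s) +
      ((Real.log x ^ k : ℝ) : ℂ) * (-s * (x : ℂ) ^ (-s - 1))) x := by
  have h1 : HasDerivAt (fun y : ℝ => Real.log y ^ k) (k * Real.log x ^ (k - 1) * x⁻¹) x :=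
    (Real.hasDerivAt_log hx.ne').pow k
  have h2 : HasDerivAt (fun y : ℝ => ((Real.log y ^ k : ℝ) : ℂ))
      ((k * Real.log x ^ (k - 1) * x⁻¹ : ℝ) : ℂ) x := h1.ofReal_comp
  have h3 : HasDerivAt (fun y : ℝ => (y : ℂ) ^ (-s)) (-s * (x : ℂ) ^ (-s - 1)) x := by
    have h4 : HasDerivAt (fun y : ℂ => y ^ (-s)) (-s * (x : ℂ) ^ (-s - 1)) (x : ℂ) := by
      have := (hasDerivAt_id (x : ℂ)).cpow_const (c := -s) (Or.inl (by simpa using hx))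
      simpa using this
    exact h4.comp_ofReal
  exact h2.mul h3

theorem wt_diff (k : ℕ) {s : ℂ} (hs : 1 ≤ s.re) {n : ℕ} (hn : 1 ≤ n) :
    ‖wt k s ((n : ℝ) + 1) - wt k s n‖ ≤ (k + ‖s‖) * (1 + Real.log ((n : ℝ) + 1)) ^ k / (n : ℝ) ^ 2 := by
  have hn0 : (1 : ℝ) ≤ n := by exact_mod_cast hn
  have key := (convex_Icc (n : ℝ) ((n : ℝ) + 1)).norm_image_sub_le_of_norm_hasDerivWithin_le
    (f := wt k s) (f' := fun x : ℝ => ((k * Real.log x ^ (k - 1) * x⁻¹ : ℝ) : ℂ) * (x : ℂ) ^ (-s) +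
      ((Real.log x ^ k : ℝ) : ℂ) * (-s * (x : ℂ) ^ (-s - 1)))
    (C := (k + ‖s‖) * (1 + Real.log ((n : ℝ) + 1)) ^ k / (n : ℝ) ^ 2) (x := n) (y := (n : ℝ) + 1)
    (fun x hx => (wt_der k s (by linarith [hx.1])).hasDerivWithinAt) ?_ ⟨le_rfl, by linarith⟩ ⟨by linarith, le_rfl⟩
  · simpa using key
  intro x hx
  have hx1 : 1 ≤ x := hn0.trans hx.1
  have hx0 : 0 < x := by linarith
  have hl0 : 0 ≤ Real.log x := Real.log_nonneg hx1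
  have hl1 : Real.log x ≤ Real.log ((n : ℝ) + 1) := Real.log_le_log hx0 hx.2
  set ℓ := 1 + Real.log ((n : ℝ) + 1) with hℓ
  have hℓ1 : 1 ≤ ℓ := by linarith
  have hp1 : Real.log x ^ (k - 1) ≤ ℓ ^ k :=
    (pow_le_pow_left₀ hl0 (by linarith) _).trans (pow_le_pow_right₀ hℓ1 (by omega))
  have hp2 : Real.log x ^ k ≤ ℓ ^ k := pow_le_pow_left₀ hl0 (by linarith) _
  have hx2 : x ^ (-(2 : ℝ)) ≤ ((n : ℝ) ^ 2)⁻¹ := by
    rw [Real.rpow_neg hx0.le]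
    apply inv_anti₀ (by positivity)
    rw [show (2 : ℝ) = ((2 : ℕ) : ℝ) by norm_num, Real.rpow_natCast]
    exact pow_le_pow_left₀ (by linarith) hx.1 2
  have e1 : ‖(x : ℂ) ^ (-s)‖ = x ^ (-s.re) := by
    rw [Complex.norm_cpow_eq_rpow_re_of_pos hx0, Complex.neg_re]
  have e2 : ‖(x : ℂ) ^ (-s - 1)‖ = x ^ (-s.re - 1) := by
    rw [Complex.norm_cpow_eq_rpow_re_of_pos hx0, Complex.sub_re, Complex.neg_re, Complex.one_re]
  have e3 : x⁻¹ * x ^ (-s.re) = x ^ (-s.re - 1) := by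
    rw [← Real.rpow_neg_one x, ← Real.rpow_add hx0]
    congr 1
    ring
  have e4 : x ^ (-s.re - 1) ≤ ((n : ℝ) ^ 2)⁻¹ :=
    (Real.rpow_le_rpow_of_exponent_le hx1 (by linarith)).trans hx2
  have e5 : 0 ≤ x ^ (-s.re - 1) := Real.rpow_nonneg hx0.le _
  calc ‖((k * Real.log x ^ (k - 1) * x⁻¹ : ℝ) : ℂ) * (x : ℂ) ^ (-s) +
      ((Real.log x ^ k : ℝ) : ℂ) * (-s * (x : ℂ) ^ (-s - 1))‖
      ≤ ‖((k * Real.log x ^ (k - 1) * x⁻¹ : ℝ) : ℂ) * (x : ℂ) ^ (-s)‖ +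
        ‖((Real.log x ^ k : ℝ) : ℂ) * (-s * (x : ℂ) ^ (-s - 1))‖ := norm_add_le _ _
    _ = k * Real.log x ^ (k - 1) * (x⁻¹ * x ^ (-s.re)) + Real.log x ^ k * (‖s‖ * x ^ (-s.re - 1)) := by
        rw [norm_mul, norm_mul, norm_mul, Complex.norm_real, Complex.norm_real, norm_neg, e1, e2,
          Real.norm_of_nonneg (by positivity), Real.norm_of_nonneg (by positivity)]
        ring
    _ = (k * Real.log x ^ (k - 1) + Real.log x ^ k * ‖s‖) * x ^ (-s.re - 1) := by rw [e3]; ring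
    _ ≤ (k * ℓ ^ k + ℓ ^ k * ‖s‖) * ((n : ℝ) ^ 2)⁻¹ := by
        apply mul_le_mul _ e4 e5 (by positivity)
        apply add_le_add
        · exact mul_le_mul_of_nonneg_left hp1 (Nat.cast_nonneg _)
        · exact mul_le_mul_of_nonneg_right hp2 (norm_nonneg _)
    _ = (k + ‖s‖) * ℓ ^ k / (n : ℝ) ^ 2 := by
        rw [div_eq_mul_inv]
        ring

theorem rp_step {β : ℝ} (hβ : 0 < β) {n : ℕ} (hn : 2 ≤ n) :
    β * (n : ℝ) ^ (-1 - β) ≤ ((n - 1 : ℕ) : ℝ) ^ (-β) - (n : ℝ) ^ (-β) := by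
  have hn0 : (2 : ℝ) ≤ n := by exact_mod_cast hn
  have hnp : (0 : ℝ) < n := by linarith
  have hu : (1 : ℝ) / n ≤ 1 / 2 := one_div_le_one_div_of_le (by norm_num) hn0
  have hu0 : 0 < 1 - (1 : ℝ) / n := by linarith
  have e1 : ((n - 1 : ℕ) : ℝ) = n * (1 - 1 / n) := by
    rw [Nat.cast_sub (by omega)]
    field_simp
    norm_num
  have e2 : 1 + β / n ≤ (1 - (1 : ℝ) / n) ^ (-β) := by
    rw [Real.rpow_def_of_pos hu0]
    have h1 : Real.log (1 - (1 : ℝ) / n) ≤ -(1 / n) := by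
      have := Real.log_le_sub_one_of_pos hu0
      linarith
    have h2 : β / n ≤ Real.log (1 - (1 : ℝ) / n) * -β := by
      have h3 : β * Real.log (1 - (1 : ℝ) / n) ≤ β * -(1 / n) := mul_le_mul_of_nonneg_left h1 hβ.le
      have h4 : β * -(1 / (n : ℝ)) = -(β / n) := by ring
      rw [h4] at h3
      linarith
    have h5 := Real.add_one_le_exp (Real.log (1 - (1 : ℝ) / n) * -β)
    linarith
  have e3 : (n : ℝ) ^ (-1 - β) = (n : ℝ) ^ (-β) * (n : ℝ)⁻¹ := by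
    rw [← Real.rpow_neg_one (n : ℝ), ← Real.rpow_add hnp]
    congr 1
    ring
  have e4 : 0 < (n : ℝ) ^ (-β) := Real.rpow_pos_of_pos hnp _
  rw [e1, Real.mul_rpow hnp.le hu0.le, e3]
  have h6 := mul_le_mul_of_nonneg_left e2 e4.le
  have h7 : (n : ℝ) ^ (-β) * (1 + β / n) = (n : ℝ) ^ (-β) + β * ((n : ℝ) ^ (-β) * (n : ℝ)⁻¹) := by
    rw [div_eq_mul_inv]
    ring
  rw [h7] at h6
  linarith

theorem rp_sum {β : ℝ} (hβ : 0 < β) {N M : ℕ} (hN : 1 ≤ N) (h : N ≤ M) :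
    ∑ n ∈ Ioc N M, (n : ℝ) ^ (-1 - β) ≤ ((N : ℝ) ^ (-β) - (M : ℝ) ^ (-β)) / β := by
  induction M, h using Nat.le_induction with
  | base => simp
  | succ M hM ih =>
    have e1 : Ioc N (M + 1) = insert (M + 1) (Ioc N M) := by
      ext x
      simp only [mem_Ioc, mem_insert]
      omega
    have n1 : M + 1 ∉ Ioc N M := by simp
    rw [e1, sum_insert n1]
    have h1 := rp_step hβ (n := M + 1) (by omega)
    rw [Nat.add_sub_cancel] at h1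
    have h2 : ((M + 1 : ℕ) : ℝ) ^ (-1 - β) ≤ ((M : ℝ) ^ (-β) - ((M + 1 : ℕ) : ℝ) ^ (-β)) / β := by
      rw [le_div_iff₀ hβ, mul_comm]
      exact h1
    have h3 : ((N : ℝ) ^ (-β) - ((M + 1 : ℕ) : ℝ) ^ (-β)) / β =
        ((M : ℝ) ^ (-β) - ((M + 1 : ℕ) : ℝ) ^ (-β)) / β + ((N : ℝ) ^ (-β) - (M : ℝ) ^ (-β)) / β := by
      ring
    rw [h3]
    exact add_le_add h2 ih

theorem lg_pow (k : ℕ) {δ : ℝ} (hδ : 0 < δ) {n : ℕ} (hn : 1 ≤ n) :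
    (1 + Real.log ((n : ℝ) + 1)) ^ k ≤ (2 + 2 * ((k : ℝ) + 1) / δ) ^ k * (n : ℝ) ^ (δ / 2) := by
  have hn0 : (1 : ℝ) ≤ n := by exact_mod_cast hn
  have hk : (0 : ℝ) < (k : ℝ) + 1 := by positivity
  set ε := δ / (2 * ((k : ℝ) + 1)) with hε
  have hε0 : 0 < ε := by positivity
  have h1 : Real.log ((n : ℝ) + 1) ≤ 1 + Real.log n := by
    have h2 : Real.log ((n : ℝ) + 1) ≤ Real.log (2 * n) := Real.log_le_log (by linarith) (by linarith)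
    rw [Real.log_mul (by norm_num) (by linarith)] at h2
    have := Real.log_two_lt_d9
    linarith
  have h3 : Real.log n ≤ (n : ℝ) ^ ε / ε := Real.log_le_rpow_div (by linarith) hε0
  have h4 : (1 : ℝ) ≤ (n : ℝ) ^ ε := Real.one_le_rpow hn0 hε0.le
  have h5 : 1 + Real.log ((n : ℝ) + 1) ≤ (2 + 2 * ((k : ℝ) + 1) / δ) * (n : ℝ) ^ ε := by
    have h6 : (n : ℝ) ^ ε / ε = 2 * ((k : ℝ) + 1) / δ * (n : ℝ) ^ ε := by
      rw [hε]
      field_simp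
    rw [h6] at h3
    linarith
  have h7 : 0 ≤ 1 + Real.log ((n : ℝ) + 1) := by
    have := Real.log_nonneg (show (1 : ℝ) ≤ (n : ℝ) + 1 by linarith)
    linarith
  refine (pow_le_pow_left₀ h7 h5 k).trans ?_
  rw [mul_pow]
  apply mul_le_mul_of_nonneg_left _ (by positivity)
  rw [← Real.rpow_natCast ((n : ℝ) ^ ε) k, ← Real.rpow_mul (by linarith)]
  apply Real.rpow_le_rpow_of_exponent_le hn0
  rw [hε]
  have h8 : δ / (2 * ((k : ℝ) + 1)) * k = δ / 2 * ((k : ℝ) / ((k : ℝ) + 1)) := by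
    field_simp
  rw [h8]
  have h9 : (k : ℝ) / ((k : ℝ) + 1) ≤ 1 := by
    rw [div_le_one hk]
    linarith
  have h10 : 0 ≤ δ / 2 := by positivity
  calc δ / 2 * ((k : ℝ) / ((k : ℝ) + 1)) ≤ δ / 2 * 1 := mul_le_mul_of_nonneg_left h9 h10
    _ = δ / 2 := mul_one _

/-- the constant of `tail` -/
def tc (k : ℕ) (δ : ℝ) : ℝ := (2 + 2 * ((k : ℝ) + 1) / δ) ^ k * (2 + 2 * ((k : ℝ) + 1) / δ)

theorem tail (k : ℕ) {δ Q : ℝ} (hδ : 0 < δ) (hQ : 0 ≤ Q) {s : ℂ} (hs : 1 ≤ s.re) (a : ℕ → ℂ)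
    (ha : ∀ n : ℕ, 1 ≤ n → ‖∑ k ∈ Icc 1 n, a k‖ ≤ Q * (n : ℝ) ^ (1 - δ)) {N M : ℕ} (hN : 1 ≤ N)
    (h : N ≤ M) :
    ‖∑ n ∈ Ioc N M, a n * wt k s n‖ ≤ tc k δ * Q * (1 + ‖s‖) * (N : ℝ) ^ (-(δ / 2)) := by
  set K : ℝ := (2 + 2 * ((k : ℝ) + 1) / δ) ^ k with hK
  have hK0 : 0 ≤ K := by positivity
  have hN0 : (1 : ℝ) ≤ N := by exact_mod_cast hN
  have hM0 : (1 : ℝ) ≤ M := by exact_mod_cast hN.trans h
  have hNM : (N : ℝ) ≤ M := by exact_mod_cast h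
  have hmain : ∀ n : ℕ, 1 ≤ n → ‖(∑ k ∈ Icc 1 n, a k) * wt k s ((n + 1 : ℕ) : ℝ)‖ ≤
      Q * K * (n : ℝ) ^ (-(δ / 2)) := by
    intro n hn
    have hn0 : (1 : ℝ) ≤ n := by exact_mod_cast hn
    have hnp : (0 : ℝ) < n := by linarith
    rw [norm_mul]
    have h1 := wt_norm k hs (x := ((n + 1 : ℕ) : ℝ)) (by push_cast; linarith)
    have h2 : Real.log ((n + 1 : ℕ) : ℝ) ^ k / ((n + 1 : ℕ) : ℝ) ≤ K * (n : ℝ) ^ (δ / 2) * (n : ℝ) ^ (-1 : ℝ) := by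
      have h3 := lg_pow k hδ hn
      have h4 : Real.log ((n + 1 : ℕ) : ℝ) ^ k ≤ (1 + Real.log ((n : ℝ) + 1)) ^ k := by
        push_cast
        have := Real.log_nonneg (show (1 : ℝ) ≤ (n : ℝ) + 1 by linarith)
        exact pow_le_pow_left₀ this (by linarith) k
      rw [div_eq_mul_inv, Real.rpow_neg_one]
      apply mul_le_mul (h4.trans h3) _ (by positivity) (by positivity)
      exact inv_anti₀ hnp (by push_cast; linarith)
    calc ‖∑ k ∈ Icc 1 n, a k‖ * ‖wt k s ((n + 1 : ℕ) : ℝ)‖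
        ≤ (Q * (n : ℝ) ^ (1 - δ)) * (K * (n : ℝ) ^ (δ / 2) * (n : ℝ) ^ (-1 : ℝ)) :=
          mul_le_mul (ha n hn) (h1.trans h2) (norm_nonneg _) (by positivity)
      _ = Q * K * ((n : ℝ) ^ (1 - δ) * (n : ℝ) ^ (δ / 2) * (n : ℝ) ^ (-1 : ℝ)) := by ring
      _ = Q * K * (n : ℝ) ^ (-(δ / 2)) := by
          rw [← Real.rpow_add hnp, ← Real.rpow_add hnp]
          congr 2
          ring
  have hdec : (M : ℝ) ^ (-(δ / 2)) ≤ (N : ℝ) ^ (-(δ / 2)) :=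
    Real.rpow_le_rpow_of_nonpos (by linarith) hNM (by linarith)
  have e := abl a (fun n : ℕ => wt k s (n : ℝ)) h
  rw [e]
  have t1 := hmain M (hN.trans h)
  have t2 := hmain N hN
  have t3 : ‖∑ n ∈ Ioc N M, (∑ k ∈ Icc 1 n, a k) * (wt k s ((n + 1 : ℕ) : ℝ) - wt k s (n : ℝ))‖ ≤
      Q * K * (k + ‖s‖) * ((N : ℝ) ^ (-(δ / 2)) / (δ / 2)) := by
    refine (norm_sum_le _ _).trans ?_
    have h1 : ∀ n ∈ Ioc N M, ‖(∑ k ∈ Icc 1 n, a k) * (wt k s ((n + 1 : ℕ) : ℝ) - wt k s (n : ℝ))‖ ≤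
        Q * K * (k + ‖s‖) * (n : ℝ) ^ (-1 - δ / 2) := by
      intro n hn
      rw [mem_Ioc] at hn
      have hn1 : 1 ≤ n := by omega
      have hn0 : (1 : ℝ) ≤ n := by exact_mod_cast hn1
      have hnp : (0 : ℝ) < n := by linarith
      rw [norm_mul]
      have h2 := wt_diff k hs hn1
      have h3 : (k + ‖s‖) * (1 + Real.log ((n : ℝ) + 1)) ^ k / (n : ℝ) ^ 2 ≤
          (k + ‖s‖) * (K * (n : ℝ) ^ (δ / 2)) * (n : ℝ) ^ (-2 : ℝ) := by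
        rw [div_eq_mul_inv, Real.rpow_neg hnp.le, show (2 : ℝ) = ((2 : ℕ) : ℝ) by norm_num,
          Real.rpow_natCast]
        apply mul_le_mul_of_nonneg_right _ (by positivity)
        exact mul_le_mul_of_nonneg_left (lg_pow k hδ hn1) (by positivity)
      have e1 : ((n + 1 : ℕ) : ℝ) = (n : ℝ) + 1 := by push_cast; ring
      rw [e1]
      calc ‖∑ k ∈ Icc 1 n, a k‖ * ‖wt k s ((n : ℝ) + 1) - wt k s (n : ℝ)‖
          ≤ (Q * (n : ℝ) ^ (1 - δ)) * ((k + ‖s‖) * (K * (n : ℝ) ^ (δ / 2)) * (n : ℝ) ^ (-2 : ℝ)) :=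
            mul_le_mul (ha n hn1) (h2.trans h3) (norm_nonneg _) (by positivity)
        _ = Q * K * (k + ‖s‖) * ((n : ℝ) ^ (1 - δ) * (n : ℝ) ^ (δ / 2) * (n : ℝ) ^ (-2 : ℝ)) := by ring
        _ = Q * K * (k + ‖s‖) * (n : ℝ) ^ (-1 - δ / 2) := by
            rw [← Real.rpow_add hnp, ← Real.rpow_add hnp]
            congr 2
            ring
    refine (sum_le_sum h1).trans ?_
    rw [← mul_sum]
    apply mul_le_mul_of_nonneg_left _ (by positivity)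
    refine (rp_sum (by positivity : (0 : ℝ) < δ / 2) hN h).trans ?_
    apply div_le_div_of_nonneg_right _ (by positivity)
    have : 0 ≤ (M : ℝ) ^ (-(δ / 2)) := by positivity
    linarith
  have t4 : ‖(∑ k ∈ Icc 1 M, a k) * wt k s ((M + 1 : ℕ) : ℝ) -
      (∑ k ∈ Icc 1 N, a k) * wt k s ((N + 1 : ℕ) : ℝ) -
      ∑ n ∈ Ioc N M, (∑ k ∈ Icc 1 n, a k) * (wt k s ((n + 1 : ℕ) : ℝ) - wt k s (n : ℝ))‖ ≤
      Q * K * (M : ℝ) ^ (-(δ / 2)) + Q * K * (N : ℝ) ^ (-(δ / 2)) +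
      Q * K * (k + ‖s‖) * ((N : ℝ) ^ (-(δ / 2)) / (δ / 2)) := by
    refine (norm_sub_le _ _).trans (add_le_add ((norm_sub_le _ _).trans (add_le_add t1 t2)) t3)
  refine t4.trans ?_
  have h5 : Q * K * (M : ℝ) ^ (-(δ / 2)) ≤ Q * K * (N : ℝ) ^ (-(δ / 2)) :=
    mul_le_mul_of_nonneg_left hdec (by positivity)
  have h6 : Q * K * (N : ℝ) ^ (-(δ / 2)) + Q * K * (N : ℝ) ^ (-(δ / 2)) +
      Q * K * (k + ‖s‖) * ((N : ℝ) ^ (-(δ / 2)) / (δ / 2)) =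
      K * (2 + 2 * ((k : ℝ) + ‖s‖) / δ) * Q * (N : ℝ) ^ (-(δ / 2)) := by
    field_simp
    ring
  have h7 : K * (2 + 2 * ((k : ℝ) + ‖s‖) / δ) ≤ tc k δ * (1 + ‖s‖) := by
    unfold tc
    rw [← hK, mul_assoc]
    apply mul_le_mul_of_nonneg_left _ hK0
    have hs0 : 0 ≤ ‖s‖ := norm_nonneg s
    have h8 : 2 * ((k : ℝ) + ‖s‖) / δ ≤ 2 * ((k : ℝ) + 1) / δ * (1 + ‖s‖) := by
      rw [div_mul_eq_mul_div]
      apply div_le_div_of_nonneg_right _ hδ.le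
      have hk0 : (0 : ℝ) ≤ k := Nat.cast_nonneg k
      nlinarith [mul_nonneg hk0 hs0]
    have h9 : 0 ≤ 2 * ((k : ℝ) + 1) / δ := by positivity
    nlinarith
  calc _ ≤ Q * K * (N : ℝ) ^ (-(δ / 2)) + Q * K * (N : ℝ) ^ (-(δ / 2)) +
      Q * K * (k + ‖s‖) * ((N : ℝ) ^ (-(δ / 2)) / (δ / 2)) := by linarith
    _ = K * (2 + 2 * ((k : ℝ) + ‖s‖) / δ) * Q * (N : ℝ) ^ (-(δ / 2)) := h6
    _ ≤ (tc k δ * (1 + ‖s‖)) * Q * (N : ℝ) ^ (-(δ / 2)) := by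
        apply mul_le_mul_of_nonneg_right _ (by positivity)
        exact mul_le_mul_of_nonneg_right h7 hQ
    _ = _ := by ring

end H1.PN
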