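import Pool.Agent.H1.PN.Dv
import Pool.Agent.H43.LF.Smo

/-!
# H1/PN/Blk: the sums of `lam` over dyadic intervals
-/

set_option autoImplicit false

open scoped NumberField
open NumberField IsDedekindDomain H63.MA H36.QA Finset
open scoped Classical

noncomputable section

namespace H1.PN

theorem abl2 (a g : ℕ → ℂ) {N M : ℕ} (h : N ≤ M) :
    ∑ n ∈ Ioc N M, a n * g n = (∑ k ∈ Ioc N M, a k) * g (M + 1) -
      ∑ n ∈ Ioc N M, (∑ k ∈ Ioc N n, a k) * (g (n + 1) - g n) := by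
  induction M, h using Nat.le_induction with
  | base => simp
  | succ M hM ih =>
    have e1 : Ioc N (M + 1) = insert (M + 1) (Ioc N M) := by
      ext x
      simp only [mem_Ioc, mem_insert]
      omega
    have n1 : M + 1 ∉ Ioc N M := by simp
    have e3 : ∑ k ∈ Ioc N (M + 1), a k = a (M + 1) + ∑ k ∈ Ioc N M, a k := by
      rw [e1, sum_insert n1]
    have e4 : ∑ n ∈ Ioc N (M + 1), a n * g n = a (M + 1) * g (M + 1) + ∑ n ∈ Ioc N M, a n * g n := by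
      rw [e1, sum_insert n1]
    have e5 : ∑ n ∈ Ioc N (M + 1), (∑ k ∈ Ioc N n, a k) * (g (n + 1) - g n) =
        (∑ k ∈ Ioc N (M + 1), a k) * (g (M + 1 + 1) - g (M + 1)) +
        ∑ n ∈ Ioc N M, (∑ k ∈ Ioc N n, a k) * (g (n + 1) - g n) := by
      conv_lhs => rw [e1, sum_insert n1]
    rw [e4, e5, e3, ih]
    ring

theorem abv (a : ℕ → ℂ) (w : ℕ → ℝ) {N M : ℕ} (h : N ≤ M) {E : ℝ}
    (hE : ∀ m, N ≤ m → m ≤ M → ‖∑ k ∈ Ioc N m, a k‖ ≤ E) :
    ‖∑ n ∈ Ioc N M, a n * (w n : ℂ)‖ ≤ E * |w (M + 1)| + E * ∑ n ∈ Ioc N M, |w (n + 1) - w n| := by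
  rw [abl2 a (fun n => (w n : ℂ)) h]
  refine (norm_sub_le _ _).trans (add_le_add ?_ ?_)
  · rw [norm_mul, Complex.norm_real, Real.norm_eq_abs]
    exact mul_le_mul_of_nonneg_right (hE M h le_rfl) (abs_nonneg _)
  · refine (norm_sum_le _ _).trans ?_
    rw [mul_sum]
    refine sum_le_sum fun n hn => ?_
    rw [mem_Ioc] at hn
    rw [norm_mul, ← Complex.ofReal_sub, Complex.norm_real, Real.norm_eq_abs]
    exact mul_le_mul_of_nonneg_right (hE n hn.1.le hn.2) (abs_nonneg _)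

theorem tele (w : ℕ → ℝ) {N M : ℕ} (h : N ≤ M) :
    ∑ n ∈ Ioc N M, (w (n + 1) - w n) = w (M + 1) - w (N + 1) := by
  induction M, h using Nat.le_induction with
  | base => simp
  | succ M hM ih =>
    have e1 : Ioc N (M + 1) = insert (M + 1) (Ioc N M) := by
      ext x
      simp only [mem_Ioc, mem_insert]
      omega
    have n1 : M + 1 ∉ Ioc N M := by simp
    rw [e1, sum_insert n1, ih]
    ring

theorem abr1 (a : ℕ → ℂ) (w : ℕ → ℝ) {N M : ℕ} (h : N ≤ M) {E : ℝ}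
    (hE : ∀ m, N ≤ m → m ≤ M → ‖∑ k ∈ Ioc N m, a k‖ ≤ E) (hw : ∀ n, N < n → w (n + 1) ≤ w n)
    (hw0 : ∀ n, N < n → 0 ≤ w n) : ‖∑ n ∈ Ioc N M, a n * (w n : ℂ)‖ ≤ E * w (N + 1) := by
  refine (abv a w h hE).trans (le_of_eq ?_)
  have h1 : ∑ n ∈ Ioc N M, |w (n + 1) - w n| = -∑ n ∈ Ioc N M, (w (n + 1) - w n) := by
    rw [← sum_neg_distrib]
    refine sum_congr rfl fun n hn => ?_
    rw [mem_Ioc] at hn
    rw [abs_of_nonpos (by linarith [hw n hn.1])]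
  rw [h1, tele w h, abs_of_nonneg (hw0 (M + 1) (by omega))]
  ring

theorem abr2 (a : ℕ → ℂ) (w : ℕ → ℝ) {N M : ℕ} (h : N ≤ M) {E : ℝ} (hE0 : 0 ≤ E)
    (hE : ∀ m, N ≤ m → m ≤ M → ‖∑ k ∈ Ioc N m, a k‖ ≤ E) (hw : ∀ n, w n ≤ w (n + 1))
    (hw0 : ∀ n, 0 ≤ w n) : ‖∑ n ∈ Ioc N M, a n * (w n : ℂ)‖ ≤ 2 * E * w (M + 1) := by
  refine (abv a w h hE).trans ?_
  have h1 : ∑ n ∈ Ioc N M, |w (n + 1) - w n| = ∑ n ∈ Ioc N M, (w (n + 1) - w n) := by
    refine sum_congr rfl fun n _ => ?_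
    rw [abs_of_nonneg (by linarith [hw n])]
  rw [h1, tele w h, abs_of_nonneg (hw0 (M + 1))]
  have := mul_nonneg hE0 (hw0 (N + 1))
  nlinarith

/-- `(log x)^k ≤ C x^(1/2)` -/
theorem lgr (k : ℕ) {x : ℝ} (hx : 1 ≤ x) : Real.log x ^ k ≤ (2 * ((k : ℝ) + 1)) ^ k * x ^ (1 / 2 : ℝ) := by
  have hk : (0 : ℝ) < (k : ℝ) + 1 := by positivity
  have hε : 0 < 1 / (2 * ((k : ℝ) + 1)) := by positivity
  have h1 := Real.log_le_rpow_div (x := x) (by linarith) hε
  have h2 : x ^ (1 / (2 * ((k : ℝ) + 1))) / (1 / (2 * ((k : ℝ) + 1))) =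
      2 * ((k : ℝ) + 1) * x ^ (1 / (2 * ((k : ℝ) + 1))) := by
    field_simp
  rw [h2] at h1
  refine (pow_le_pow_left₀ (Real.log_nonneg hx) h1 k).trans ?_
  rw [mul_pow]
  apply mul_le_mul_of_nonneg_left _ (by positivity)
  rw [← Real.rpow_natCast (x ^ _) k, ← Real.rpow_mul (by linarith)]
  apply Real.rpow_le_rpow_of_exponent_le hx
  rw [div_mul_eq_mul_div, one_mul, div_le_div_iff₀ (by positivity) (by norm_num)]
  linarith

/-- the block estimate -/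
theorem blk (n : ℕ) (hn : 0 < n) : ∃ B : ℕ, 1 ≤ B ∧ ∀ A : ℕ, ∃ C : ℝ, 1 ≤ C ∧
    ∀ (L : Type) [Field L] [NumberField L], TC L n → ∀ 𝔣 : Ideal (𝓞 L), 𝔣 ≠ ⊥ → ∀ χ : RC L 𝔣, Sq2 χ →
      ∀ N N' : ℕ, 3 ≤ N → N ≤ N' → N' ≤ 2 * N →
        Real.log (dd L * Ideal.absNorm 𝔣) ≤ 2 * Real.log N ^ (1 / (4 * (B : ℝ))) →
        Real.log N ^ A * ‖∑ m ∈ Ioc N N', lam χ.χ m‖ ≤ C * N := by
  obtain ⟨B0, hB0⟩ := dv n hn
  obtain ⟨B, hB⟩ : ∃ B : ℕ, B = B0 + 1 := ⟨_, rfl⟩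
  refine ⟨B, by omega, fun A => ?_⟩
  obtain ⟨j, hj⟩ : ∃ j : ℕ, j = 2 * A + 2 := ⟨_, rfl⟩
  obtain ⟨C2, hC2, hdv⟩ := hB0 j
  obtain ⟨C1, hC1, hsmo⟩ := Pool.Agent.H43.LF.smo (j + 1)
  obtain ⟨c, hc⟩ : ∃ c : ℝ, c = 1 / (4 * (B : ℝ)) := ⟨_, rfl⟩
  have hBr : (1 : ℝ) ≤ B := by
    rw [hB]
    push_cast
    linarith [(Nat.cast_nonneg B0 : (0 : ℝ) ≤ B0)]
  have hc0 : 0 < c := by
    rw [hc]
    positivity
  obtain ⟨p, hp⟩ : ∃ p : ℕ, p = 2 * A + 3 := ⟨_, rfl⟩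
  obtain ⟨K1, hK1⟩ : ∃ K1 : ℝ, K1 = 6 + p / c := ⟨_, rfl⟩
  have hK10 : 6 ≤ K1 := by
    rw [hK1]
    have : (0 : ℝ) ≤ p / c := by positivity
    linarith
  obtain ⟨K2, hK2⟩ : ∃ K2 : ℝ, K2 = K1 ^ (B * (j + 1)) := ⟨_, rfl⟩
  have hK21 : 1 ≤ K2 := by
    rw [hK2]
    exact one_le_pow₀ (by linarith)
  obtain ⟨K3, hK3⟩ : ∃ K3 : ℝ, K3 = (2 * (((A + 1 : ℕ) : ℝ) + 1)) ^ (A + 1) := ⟨_, rfl⟩
  have hK30 : 0 ≤ K3 := by
    rw [hK3]
    positivity
  obtain ⟨K4, hK4⟩ : ∃ K4 : ℝ, K4 = C1 * (C2 * K2 * (1 + 4 * ((A : ℝ) + 1)) + 1 + (1 + K3)) := ⟨_, rfl⟩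
  have hn1 : (1 : ℝ) ≤ n := by exact_mod_cast hn
  have hA0 : (0 : ℝ) ≤ A := Nat.cast_nonneg A
  have hK40 : 0 ≤ K4 := by
    rw [hK4]
    positivity
  refine ⟨1 + 6 * n * K4, by nlinarith, ?_⟩
  intro L _ _ hL 𝔣 h𝔣 χ hχ N N' hN hNN' hN'2 hcond
  have hb := lbd_rc_norm_le χ
  have hN0 : (3 : ℝ) ≤ N := by exact_mod_cast hN
  obtain ⟨l, hl⟩ : ∃ l : ℝ, l = Real.log N := ⟨_, rfl⟩
  rw [← hl, ← hc] at hcond
  rw [← hl]
  have hl1 : 1 ≤ l := by
    rw [hl, Real.le_log_iff_exp_le (by linarith)]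
    exact Real.exp_one_lt_three.le.trans hN0
  have hl0 : 0 < l := by linarith
  -- the parameters
  obtain ⟨η, hη⟩ : ∃ η : ℝ, η = 1 / l ^ (A + 1) := ⟨_, rfl⟩
  obtain ⟨Y, hY⟩ : ∃ Y : ℝ, Y = l ^ p := ⟨_, rfl⟩
  have hη0 : 0 < η := by
    rw [hη]
    positivity
  have hη1 : η ≤ 1 := by
    rw [hη, div_le_one (by positivity)]
    exact one_le_pow₀ hl1
  have hY0 : 0 < Y := by
    rw [hY]
    positivity
  have hY1 : 1 ≤ Y := by
    rw [hY]
    exact one_le_pow₀ hl1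
  obtain ⟨f, hf⟩ : ∃ f : ℕ → ℂ, f = fun m => pw j (lam χ.χ) m * ((n : ℂ))⁻¹ := ⟨_, rfl⟩
  have hlam0 : lam (χ.χ : Ideal (𝓞 L) → ℂ) 0 = 0 := by
    unfold lam
    apply sum_eq_zero
    intro v _
    simp
  have hf0 : f 0 = 0 := by
    rw [hf]
    show pw j (lam χ.χ) 0 * _ = 0
    unfold pw
    rw [hlam0, mul_zero, zero_mul]
  have hfb : ∀ m : ℕ, 1 ≤ m → ‖f m‖ ≤ Real.log m ^ (j + 1) := by
    intro m hm
    have h0 : 0 ≤ Real.log m := Real.log_natCast_nonneg m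
    have h1 := lam_le (χ.χ : Ideal (𝓞 L) → ℂ) hb hm
    rw [hL.2] at h1
    rw [hf]
    show ‖pw j (lam χ.χ) m * ((n : ℂ))⁻¹‖ ≤ _
    unfold pw
    rw [norm_mul, norm_mul, norm_inv, Complex.norm_natCast, Complex.norm_real, Real.norm_of_nonneg (by positivity),
      pow_succ, mul_assoc]
    apply mul_le_mul_of_nonneg_left _ (by positivity)
    rw [← div_eq_mul_inv, div_le_iff₀ (by linarith), mul_comm]
    exact h1
  -- the bound for the series
  obtain ⟨D, hD⟩ : ∃ D : ℝ, D = C2 * K2 * l ^ (((j : ℝ) + 1) / 4) := ⟨_, rfl⟩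
  have hD0 : 0 ≤ D := by
    rw [hD]
    positivity
  have hlc : 1 ≤ l ^ c := Real.one_le_rpow hl1 hc0.le
  have hser : ∀ u : ℝ, |u - 0| ≤ Y →
      ‖∑' m : ℕ, f m * (m : ℂ) ^ (-((1 + 1 / Real.log N : ℝ) + (u : ℂ) * Complex.I))‖ ≤ D := by
    intro u hu
    rw [sub_zero] at hu
    obtain ⟨s, hs⟩ : ∃ s : ℂ, s = ((1 + 1 / Real.log N : ℝ) : ℂ) + (u : ℂ) * Complex.I := ⟨_, rfl⟩
    have hsre : s.re = 1 + 1 / l := by
      rw [hs, ← hl]
      simp
    have hsim : s.im = u := by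
      rw [hs]
      simp only [Complex.add_im, Complex.ofReal_im, Complex.mul_im, Complex.ofReal_re, Complex.I_im,
        Complex.I_re, mul_one, mul_zero, add_zero, zero_add]
    have e1 : ∑' m : ℕ, f m * (m : ℂ) ^ (-((1 + 1 / Real.log N : ℝ) + (u : ℂ) * Complex.I)) =
        LSeries (pw j (lam χ.χ)) s * ((n : ℂ))⁻¹ := by
      rw [← hs]
      unfold LSeries
      rw [← tsum_mul_right]
      refine tsum_congr fun m => ?_
      rcases Nat.eq_zero_or_pos m with hm | hm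
      · rw [hm, hf0, LSeries.term_zero, zero_mul, zero_mul]
      · rw [LSeries.term_of_ne_zero (by omega), hf, Complex.cpow_neg]
        show pw j (lam χ.χ) m * ((n : ℂ))⁻¹ * _ = _
        rw [div_eq_mul_inv]
        ring
    rw [e1, norm_mul, norm_inv, Complex.norm_natCast]
    have h1l : 0 < 1 / l := by positivity
    have h1l' : 1 / l ≤ 1 := by
      rw [div_le_one hl0]
      exact hl1
    have h2 := hdv L hL 𝔣 h𝔣 χ hχ s (by rw [hsre]; linarith) (by rw [hsre]; linarith)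
    rw [hsim] at h2
    have h3 : el L 𝔣 u ≤ K1 * l ^ c := by
      have h4 : Real.log (2 + |u|) ≤ 2 + p * (l ^ c / c) := by
        have h5 : Real.log (2 + |u|) ≤ Real.log (3 * Y) :=
          Real.log_le_log (by linarith [abs_nonneg u]) (by linarith)
        rw [Real.log_mul (by norm_num) (by linarith), hY, Real.log_pow] at h5
        have h6 : Real.log 3 ≤ 2 := by
          have := Real.log_le_sub_one_of_pos (show (0 : ℝ) < 3 by norm_num)
          linarith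
        have h7 : Real.log l ≤ l ^ c / c := Real.log_le_rpow_div hl0.le hc0
        have h8 := mul_le_mul_of_nonneg_left h7 (Nat.cast_nonneg (α := ℝ) p)
        linarith
      have hdd := one_le_dd L
      have hN1 : (1 : ℝ) ≤ Ideal.absNorm 𝔣 := by exact_mod_cast absNorm_pos h𝔣
      rw [Real.log_mul (by linarith) (by linarith)] at hcond
      have h9 : K1 * l ^ c = 6 * l ^ c + p * (l ^ c / c) := by
        rw [hK1]
        ring
      rw [h9]
      unfold el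
      linarith
    have hel1 : 1 ≤ el L 𝔣 u := by linarith [(el_two 𝔣 h𝔣 u).1]
    have h10 : el L 𝔣 u ^ (B0 * (j + 1)) ≤ K2 * l ^ (((j : ℝ) + 1) / 4) := by
      calc el L 𝔣 u ^ (B0 * (j + 1)) ≤ el L 𝔣 u ^ (B * (j + 1)) := by
            apply pow_le_pow_right₀ hel1
            rw [hB]
            exact Nat.mul_le_mul_right _ (by omega)
        _ ≤ (K1 * l ^ c) ^ (B * (j + 1)) := pow_le_pow_left₀ (by linarith) h3 _
        _ = K2 * l ^ (((j : ℝ) + 1) / 4) := by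
            rw [mul_pow, hK2]
            congr 1
            rw [← Real.rpow_natCast (l ^ c), ← Real.rpow_mul hl0.le]
            congr 1
            rw [hc]
            push_cast
            field_simp
    calc ‖LSeries (pw j (lam χ.χ)) s‖ * (n : ℝ)⁻¹ ≤ ‖LSeries (pw j (lam χ.χ)) s‖ * 1 := by
          apply mul_le_mul_of_nonneg_left _ (norm_nonneg _)
          exact inv_le_one_of_one_le₀ hn1
      _ ≤ C2 * el L 𝔣 u ^ (B0 * (j + 1)) := by rw [mul_one]; exact h2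
      _ ≤ C2 * (K2 * l ^ (((j : ℝ) + 1) / 4)) := mul_le_mul_of_nonneg_left h10 (by linarith)
      _ = D := by
          rw [hD]
          ring
  -- partial sums of `f(m) / m`
  have hds : ∀ m, N ≤ m → m ≤ N' → ‖∑ k ∈ Ioc N m, f k * ((k : ℂ))⁻¹‖ ≤ K4 * l ^ (A + 2) := by
    intro m _ hm2
    have h1 := hsmo f N m 0 η Y D hf0 hfb hN (by omega) hη0 hη1 hY0 hD0 hser
    have e1 : Pool.Agent.H43.LF.ds f N m 0 = ∑ k ∈ Ioc N m, f k * ((k : ℂ))⁻¹ := by
      unfold Pool.Agent.H43.LF.ds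
      refine sum_congr rfl fun k _ => ?_
      congr 1
      rw [Complex.ofReal_zero, zero_mul, add_zero, Complex.cpow_neg_one]
    rw [e1, ← hl] at h1
    refine h1.trans ?_
    rw [hK4, mul_assoc]
    apply mul_le_mul_of_nonneg_left _ hC1.le
    have t1 : D * (1 + Real.log (1 / η)) ≤ C2 * K2 * (1 + 4 * ((A : ℝ) + 1)) * l ^ (A + 2) := by
      have h2 : Real.log (1 / η) = ((A : ℝ) + 1) * Real.log l := by
        rw [hη, one_div_one_div, Real.log_pow]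
        push_cast
        ring
      have h3 : Real.log l ≤ 4 * l ^ (1 / 4 : ℝ) := by
        have := Real.log_le_rpow_div hl0.le (show (0 : ℝ) < 1 / 4 by norm_num)
        linarith
      have h4 : 1 ≤ l ^ (1 / 4 : ℝ) := Real.one_le_rpow hl1 (by norm_num)
      have h5 : 1 + Real.log (1 / η) ≤ (1 + 4 * ((A : ℝ) + 1)) * l ^ (1 / 4 : ℝ) := by
        rw [h2]
        have h6 := mul_le_mul_of_nonneg_left h3 (show 0 ≤ (A : ℝ) + 1 by linarith)
        linarith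
      calc D * (1 + Real.log (1 / η)) ≤ D * ((1 + 4 * ((A : ℝ) + 1)) * l ^ (1 / 4 : ℝ)) :=
            mul_le_mul_of_nonneg_left h5 hD0
        _ = C2 * K2 * (1 + 4 * ((A : ℝ) + 1)) * (l ^ (((j : ℝ) + 1) / 4) * l ^ (1 / 4 : ℝ)) := by
            rw [hD]
            ring
        _ ≤ C2 * K2 * (1 + 4 * ((A : ℝ) + 1)) * l ^ (A + 2) := by
            apply mul_le_mul_of_nonneg_left _ (by positivity)
            rw [← Real.rpow_add hl0, ← Real.rpow_natCast l (A + 2)]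
            apply Real.rpow_le_rpow_of_exponent_le hl1
            rw [hj]
            push_cast
            linarith
    have t2 : l ^ (j + 1 + 1) / (η * Y) ≤ l ^ (A + 2) := by
      rw [hη, hY, div_le_iff₀ (by positivity)]
      have h2 : l ^ (A + 2) * (1 / l ^ (A + 1) * l ^ p) = l ^ (j + 1 + 1) := by
        rw [div_mul_eq_mul_div, one_mul, mul_div_assoc', div_eq_iff (by positivity), ← pow_add, ← pow_add]
        congr 1
        omega
      rw [h2]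
    have t3 : l ^ (j + 1) * (η + 1 / N) ≤ (1 + K3) * l ^ (A + 2) := by
      have h2 : l ^ (j + 1) * η = l ^ (A + 2) := by
        rw [hη, mul_one_div, div_eq_iff (by positivity), ← pow_add]
        congr 1
        omega
      have h3 : l ^ (A + 1) * (1 / (N : ℝ)) ≤ K3 := by
        have h4 := lgr (A + 1) (show (1 : ℝ) ≤ N by linarith)
        rw [← hl, ← hK3] at h4
        have h5 : (N : ℝ) ^ (1 / 2 : ℝ) ≤ N := by
          calc (N : ℝ) ^ (1 / 2 : ℝ) ≤ (N : ℝ) ^ (1 : ℝ) :=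
                Real.rpow_le_rpow_of_exponent_le (by linarith) (by norm_num)
            _ = N := Real.rpow_one _
        rw [mul_one_div, div_le_iff₀ (by linarith)]
        exact h4.trans (mul_le_mul_of_nonneg_left h5 hK30)
      have h6 : l ^ (j + 1) * (1 / (N : ℝ)) = l ^ (A + 2) * (l ^ (A + 1) * (1 / (N : ℝ))) := by
        rw [← mul_assoc, ← pow_add]
        congr 2
        omega
      rw [mul_add, h2, h6]
      have h7 := mul_le_mul_of_nonneg_left h3 (show 0 ≤ l ^ (A + 2) by positivity)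
      linarith
    have h8 : C2 * K2 * (1 + 4 * ((A : ℝ) + 1)) * l ^ (A + 2) + l ^ (A + 2) + (1 + K3) * l ^ (A + 2) =
        (C2 * K2 * (1 + 4 * ((A : ℝ) + 1)) + 1 + (1 + K3)) * l ^ (A + 2) := by ring
    linarith
  -- removing the powers of the logarithm
  have hw1 : ∀ m, N ≤ m → m ≤ N' → ‖∑ k ∈ Ioc N m, f k * ((k : ℂ))⁻¹ * (((1 / Real.log k ^ j : ℝ)) : ℂ)‖ ≤
      K4 * l ^ (A + 2) * (1 / Real.log ((N + 1 : ℕ) : ℝ) ^ j) := by
    intro m hm1 hm2
    refine abr1 (fun k => f k * ((k : ℂ))⁻¹) (fun k => 1 / Real.log k ^ j) hm1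
      (fun m' h1 h2 => hds m' h1 (h2.trans hm2)) ?_ ?_
    · intro k hk
      have hk1 : (1 : ℝ) < k := by exact_mod_cast (by omega : 1 < k)
      have h0 : 0 < Real.log k := Real.log_pos hk1
      apply one_div_le_one_div_of_le (by positivity)
      apply pow_le_pow_left₀ h0.le
      apply Real.log_le_log (by linarith)
      push_cast
      linarith
    · intro k _
      have : 0 ≤ Real.log (k : ℝ) := Real.log_natCast_nonneg k
      positivity
  have hE2 : K4 * l ^ (A + 2) * (1 / Real.log ((N + 1 : ℕ) : ℝ) ^ j) ≤ K4 / l ^ A := by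
    have h1 : l ≤ Real.log ((N + 1 : ℕ) : ℝ) := by
      rw [hl]
      apply Real.log_le_log (by linarith)
      push_cast
      linarith
    have h2 : 1 / Real.log ((N + 1 : ℕ) : ℝ) ^ j ≤ 1 / l ^ j :=
      one_div_le_one_div_of_le (by positivity) (pow_le_pow_left₀ hl0.le h1 j)
    calc K4 * l ^ (A + 2) * (1 / Real.log ((N + 1 : ℕ) : ℝ) ^ j) ≤ K4 * l ^ (A + 2) * (1 / l ^ j) :=
          mul_le_mul_of_nonneg_left h2 (by positivity)
      _ = K4 / l ^ A := by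
          rw [mul_one_div, div_eq_div_iff (by positivity) (by positivity), mul_assoc, ← pow_add]
          congr 2
          omega
  -- removing `1 / k`
  have hw2 := abr2 (fun k => f k * ((k : ℂ))⁻¹ * (((1 / Real.log k ^ j : ℝ)) : ℂ)) (fun k => (n : ℝ) * k) hNN'
    (E := K4 / l ^ A) (by positivity) (fun m h1 h2 => (hw1 m h1 h2).trans hE2) (fun k => by push_cast; nlinarith)
    (fun k => by positivity)
  have e2 : ∑ m ∈ Ioc N N', lam χ.χ m =
      ∑ k ∈ Ioc N N', f k * ((k : ℂ))⁻¹ * (((1 / Real.log k ^ j : ℝ)) : ℂ) * (((n : ℝ) * k : ℝ) : ℂ) := by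
    refine sum_congr rfl fun k hk => ?_
    rw [mem_Ioc] at hk
    have hk0 : (k : ℂ) ≠ 0 := by
      have : k ≠ 0 := by omega
      exact_mod_cast this
    have hn0 : (n : ℂ) ≠ 0 := by
      have : n ≠ 0 := by omega
      exact_mod_cast this
    have hk1 : (1 : ℝ) < k := by exact_mod_cast (by omega : 1 < k)
    have h0 : Real.log k ≠ 0 := (Real.log_pos hk1).ne'
    have h0' : ((Real.log k : ℝ) : ℂ) ≠ 0 := by exact_mod_cast h0
    rw [hf]
    show _ = pw j (lam χ.χ) k * ((n : ℂ))⁻¹ * ((k : ℂ))⁻¹ * _ * _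
    unfold pw
    rw [Complex.ofReal_div, Complex.ofReal_one, Complex.ofReal_pow, Complex.ofReal_mul, Complex.ofReal_natCast,
      Complex.ofReal_natCast]
    generalize ((Real.log k : ℝ) : ℂ) = z at h0' ⊢
    field_simp
  rw [e2]
  have h11 : (((N' + 1 : ℕ)) : ℝ) ≤ 3 * N := by
    have : N' + 1 ≤ 3 * N := by omega
    exact_mod_cast this
  calc l ^ A * ‖∑ k ∈ Ioc N N', f k * ((k : ℂ))⁻¹ * (((1 / Real.log k ^ j : ℝ)) : ℂ) * (((n : ℝ) * k : ℝ) : ℂ)‖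
      ≤ l ^ A * (2 * (K4 / l ^ A) * ((n : ℝ) * ((N' + 1 : ℕ) : ℝ))) :=
        mul_le_mul_of_nonneg_left hw2 (by positivity)
    _ = 2 * K4 * n * ((N' + 1 : ℕ) : ℝ) := by
        field_simp
    _ ≤ 2 * K4 * n * (3 * N) := mul_le_mul_of_nonneg_left h11 (by positivity)
    _ ≤ (1 + 6 * n * K4) * N := by nlinarith

end H1.PN
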