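import Pool.Agent.H1.PN.Up
import Pool.Agent.H57.AN.Che

/-!
# H1/PN/Cv: the von Mangoldt coefficients of a multiplicative function on ideals

`lam χ n = ∑_{v, k ≥ 1, (N v)^k = n} χ(v)^k log (N v)`, and `log n ∑_{N I = n} χ(I)` is the Dirichlet convolution of
`lbf χ` and `lam χ` (`cvl`).
-/

set_option autoImplicit false

open scoped NumberField
open NumberField IsDedekindDomain H63.MA H36.QA Finset H57.AN
open scoped Classical

noncomputable section

namespace H1.PN

variable {L : Type} [Field L] [NumberField L]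

/-- the von Mangoldt coefficients -/
def lam (χ : Ideal (𝓞 L) → ℂ) (n : ℕ) : ℂ :=
  ∑ v ∈ PB L n, ∑ k ∈ Icc 1 n, if nm v ^ k = n then χ v.asIdeal ^ k * ((Real.log (nm v) : ℝ) : ℂ) else 0

theorem two_nm (v : Pl L) : 2 ≤ nm v := H57.LI.prk_two v

theorem lt_nm_pow (v : Pl L) (k : ℕ) : k < nm v ^ k :=
  (Nat.lt_pow_self (by norm_num : 1 < 2)).trans_le (Nat.pow_le_pow_left (two_nm v) k)

theorem nm_le_pow (v : Pl L) {k : ℕ} (hk : 1 ≤ k) : nm v ≤ nm v ^ k :=
  Nat.le_self_pow (by omega) _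

theorem lam_ext (χ : Ideal (𝓞 L) → ℂ) {e n : ℕ} (he : e ≤ n) :
    lam χ e = ∑ v ∈ PB L n, ∑ k ∈ Icc 1 n,
      if nm v ^ k = e then χ v.asIdeal ^ k * ((Real.log (nm v) : ℝ) : ℂ) else 0 := by
  unfold lam
  have hen : (e : ℝ) ≤ n := by exact_mod_cast he
  have h1 : ∀ v : Pl L, ∑ k ∈ Icc 1 e, (if nm v ^ k = e then χ v.asIdeal ^ k * ((Real.log (nm v) : ℝ) : ℂ) else 0) =
      ∑ k ∈ Icc 1 n, (if nm v ^ k = e then χ v.asIdeal ^ k * ((Real.log (nm v) : ℝ) : ℂ) else 0) := by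
    intro v
    apply sum_subset (Icc_subset_Icc le_rfl he)
    intro k hk hk'
    rw [mem_Icc] at hk hk'
    rw [if_neg]
    intro h
    have := lt_nm_pow v k
    omega
  rw [sum_congr rfl fun v _ => h1 v]
  apply sum_subset
  · intro v hv
    rw [mem_PB] at hv ⊢
    exact hv.trans hen
  · intro v _ hv'
    apply sum_eq_zero
    intro k hk
    rw [mem_Icc] at hk
    rw [if_neg]
    intro h
    apply hv'
    rw [mem_PB]
    have := nm_le_pow v hk.1
    rw [h] at this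
    exact_mod_cast this

theorem pdv (v : Pl L) (k : ℕ) {I : Ideal (𝓞 L)} (hI : I ≠ ⊥) : v.asIdeal ^ k ∣ I ↔ k ≤ rcm v I := by
  unfold rcm
  rw [← Associates.mk_dvd_mk, Associates.mk_pow]
  exact Associates.prime_pow_dvd_iff_le (Associates.mk_ne_zero.2 hI) (rcm_irr v)

theorem absNorm_pos {I : Ideal (𝓞 L)} (hI : I ≠ ⊥) : 1 ≤ Ideal.absNorm I := by
  have : Ideal.absNorm I ≠ 0 := by
    rw [Ne, Ideal.absNorm_eq_zero_iff]
    exact hI
  omega

theorem lgs {I : Ideal (𝓞 L)} (hI : I ≠ 0) :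
    ∑ᶠ v : Pl L, (rcm v I : ℝ) * Real.log (nm v) = Real.log (Ideal.absNorm I) := by
  have hfin : ∀ J : Ideal (𝓞 L), J ≠ 0 →
      (Function.support fun v : Pl L => (rcm v J : ℝ) * Real.log (nm v)).Finite := by
    intro J hJ
    refine (rcm_finite (I := J) hJ).subset fun v hv h0 => hv ?_
    have h1 : rcm v J = 0 := h0
    show (rcm v J : ℝ) * Real.log (nm v) = 0
    rw [h1, Nat.cast_zero, zero_mul]
  have hmul : ∀ J J' : Ideal (𝓞 L), J ≠ 0 → J' ≠ 0 →
      ∑ᶠ v : Pl L, (rcm v (J * J') : ℝ) * Real.log (nm v) =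
      ∑ᶠ v : Pl L, (rcm v J : ℝ) * Real.log (nm v) + ∑ᶠ v : Pl L, (rcm v J' : ℝ) * Real.log (nm v) := by
    intro J J' hJ hJ'
    rw [← finsum_add_distrib (hfin J hJ) (hfin J' hJ')]
    refine finsum_congr fun v => ?_
    rw [rcm_mul v (I := J) (J := J') hJ hJ']
    push_cast
    ring
  have hone : ∀ v : Pl L, rcm v (1 : Ideal (𝓞 L)) = 0 := by
    intro v
    have h := rcm_mul v (I := (1 : Ideal (𝓞 L))) (J := 1) one_ne_zero one_ne_zero
    rw [one_mul] at h
    omega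
  induction I using UniqueFactorizationMonoid.induction_on_prime with
  | h₁ => exact absurd rfl hI
  | h₂ J hJ =>
    have h1 : J = 1 := by
      rw [Ideal.isUnit_iff] at hJ
      rw [hJ, Ideal.one_eq_top]
    rw [h1, map_one, Nat.cast_one, Real.log_one]
    have : ∀ v : Pl L, (rcm v (1 : Ideal (𝓞 L)) : ℝ) * Real.log (nm v) = 0 := by
      intro v
      rw [hone v, Nat.cast_zero, zero_mul]
    rw [finsum_congr this, finsum_zero]
  | h₃ J p hJ hp ih =>
    have hp0 : p ≠ 0 := hp.ne_zero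
    obtain ⟨w, hw⟩ : ∃ w : Pl L, w.asIdeal = p :=
      ⟨⟨p, (Ideal.prime_iff_isPrime hp0).1 hp, hp0⟩, rfl⟩
    rw [hmul p J hp0 hJ, ih hJ, map_mul, Nat.cast_mul, Real.log_mul]
    · congr 1
      rw [finsum_eq_single _ w]
      · rw [← hw, rcm_self, Nat.cast_one, one_mul]
        rfl
      · intro v hv
        rw [← hw, rcm_ne hv, Nat.cast_zero, zero_mul]
    · have := absNorm_pos (I := p) hp0
      exact_mod_cast (by omega : Ideal.absNorm p ≠ 0)
    · have := absNorm_pos (I := J) hJ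
      exact_mod_cast (by omega : Ideal.absNorm J ≠ 0)

theorem stA {I : Ideal (𝓞 L)} (hI : I ≠ ⊥) {n : ℕ} (hn : Ideal.absNorm I = n) :
    Real.log n = ∑ v ∈ PB L n, ∑ k ∈ Icc 1 n, if v.asIdeal ^ k ∣ I then Real.log (nm v) else 0 := by
  have hn1 : 1 ≤ n := hn ▸ absNorm_pos hI
  rw [← hn, ← lgs hI, hn]
  have hdiv : ∀ (v : Pl L) (k : ℕ), k ≤ rcm v I → nm v ^ k ≤ n := by
    intro v k hk
    have h1 := (pdv v k hI).2 hk
    have h2 := Ideal.absNorm_dvd_absNorm_of_le (Ideal.le_of_dvd h1)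
    rw [map_pow, hn] at h2
    exact Nat.le_of_dvd (by omega) h2
  rw [finsum_eq_sum_of_support_subset (s := PB L n)]
  · refine sum_congr rfl fun v _ => ?_
    rw [← sum_filter, sum_const, nsmul_eq_mul]
    congr 2
    have e : (Icc 1 n).filter (fun k => v.asIdeal ^ k ∣ I) = Icc 1 (rcm v I) := by
      ext k
      rw [mem_filter, mem_Icc, mem_Icc, pdv v k hI]
      constructor
      · rintro ⟨⟨a, _⟩, b⟩
        exact ⟨a, b⟩
      · rintro ⟨a, b⟩
        have := lt_nm_pow v k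
        have := hdiv v k b
        exact ⟨⟨a, by omega⟩, b⟩
    rw [e, Nat.card_Icc, Nat.add_sub_cancel]
  · intro v hv
    rw [Finset.mem_coe, mem_PB]
    have h1 : 1 ≤ rcm v I := by
      by_contra h
      have h2 : rcm v I = 0 := by omega
      apply hv
      show (rcm v I : ℝ) * Real.log (nm v) = 0
      rw [h2, Nat.cast_zero, zero_mul]
    have := hdiv v 1 h1
    rw [pow_one] at this
    exact_mod_cast this

theorem stC (χ : Ideal (𝓞 L) →*₀ ℂ) (v : Pl L) (k : ℕ) {n : ℕ} (hn : 1 ≤ n) :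
    ∑ I ∈ (Ideal.finite_setOfPred_absNorm_eq (S := 𝓞 L) n).toFinset, (if v.asIdeal ^ k ∣ I then χ I else 0) =
      if nm v ^ k ∣ n then χ v.asIdeal ^ k * lbf χ (n / nm v ^ k) else 0 := by
  have hv0 : v.asIdeal ^ k ≠ 0 := pow_ne_zero _ v.ne_bot
  have hnp : Ideal.absNorm (v.asIdeal ^ k) = nm v ^ k := by
    rw [map_pow]
    rfl
  rw [← sum_filter]
  split_ifs with hd
  · obtain ⟨m, hm⟩ := hd
    have hpos : 0 < nm v ^ k := Nat.pow_pos (by have := two_nm v; omega)
    have hm2 : n / nm v ^ k = m := by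
      rw [hm, Nat.mul_div_cancel_left m hpos]
    rw [hm2]
    have e : ((Ideal.finite_setOfPred_absNorm_eq (S := 𝓞 L) n).toFinset).filter (fun I => v.asIdeal ^ k ∣ I) =
        ((Ideal.finite_setOfPred_absNorm_eq (S := 𝓞 L) m).toFinset).image (fun J => v.asIdeal ^ k * J) := by
      ext I
      rw [mem_filter, mem_image, lbf_mem]
      constructor
      · rintro ⟨h1, J, hJ⟩
        refine ⟨J, ?_, hJ.symm⟩
        rw [lbf_mem]
        rw [hJ, map_mul, hnp, hm] at h1
        exact Nat.eq_of_mul_eq_mul_left hpos h1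
      · rintro ⟨J, hJ, hJ'⟩
        rw [lbf_mem] at hJ
        refine ⟨?_, J, hJ'.symm⟩
        rw [← hJ', map_mul, hnp, hm, hJ]
    rw [e, sum_image fun J _ J' _ h => mul_left_cancel₀ hv0 h]
    unfold lbf
    rw [mul_sum]
    refine sum_congr rfl fun J _ => ?_
    rw [map_mul, map_pow]
  · apply sum_eq_zero
    intro I hI
    rw [mem_filter, lbf_mem] at hI
    exfalso
    apply hd
    have h2 := Ideal.absNorm_dvd_absNorm_of_le (Ideal.le_of_dvd hI.2)
    rwa [hnp, hI.1] at h2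

theorem cvl (χ : Ideal (𝓞 L) →*₀ ℂ) : pw 1 (lbf χ) = LSeries.convolution (lbf χ) (lam χ) := by
  funext n
  rcases Nat.eq_zero_or_pos n with hn | hn
  · rw [hn, LSeries.convolution_map_zero]
    unfold pw
    simp
  rw [LSeries.convolution_def]
  have hL : pw 1 (lbf χ) n = ∑ v ∈ PB L n, ∑ k ∈ Icc 1 n,
      ((Real.log (nm v) : ℝ) : ℂ) * (if nm v ^ k ∣ n then χ v.asIdeal ^ k * lbf χ (n / nm v ^ k) else 0) := by
    have h1 : ∀ (v : Pl L) (k : ℕ),
        ((Real.log (nm v) : ℝ) : ℂ) * (if nm v ^ k ∣ n then χ v.asIdeal ^ k * lbf χ (n / nm v ^ k) else 0) =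
        ∑ I ∈ (Ideal.finite_setOfPred_absNorm_eq (S := 𝓞 L) n).toFinset,
          χ I * (((if v.asIdeal ^ k ∣ I then Real.log (nm v) else 0 : ℝ)) : ℂ) := by
      intro v k
      rw [← stC χ v k hn, mul_sum]
      refine sum_congr rfl fun I _ => ?_
      split_ifs <;> simp [mul_comm]
    rw [sum_congr rfl fun v _ => sum_congr rfl fun k _ => h1 v k]
    rw [sum_congr rfl fun v _ => sum_comm, sum_comm]
    unfold pw lbf
    rw [pow_one, mul_sum]
    refine sum_congr rfl fun I hI => ?_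
    rw [lbf_mem] at hI
    have hI0 : I ≠ ⊥ := by
      rintro rfl
      rw [Ideal.absNorm_bot] at hI
      omega
    rw [stA hI0 hI, mul_comm, Complex.ofReal_sum, mul_sum]
    refine sum_congr rfl fun v _ => ?_
    rw [Complex.ofReal_sum, mul_sum]
  rw [hL]
  beta_reduce
  have h2 : ∀ p ∈ n.divisorsAntidiagonal, lbf χ p.1 * lam χ p.2 = ∑ v ∈ PB L n, ∑ k ∈ Icc 1 n,
      lbf χ p.1 * (if nm v ^ k = p.2 then χ v.asIdeal ^ k * ((Real.log (nm v) : ℝ) : ℂ) else 0) := by
    intro p hp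
    rw [Nat.mem_divisorsAntidiagonal] at hp
    have hle : p.2 ≤ n := Nat.le_of_dvd hn ⟨p.1, by rw [mul_comm]; exact hp.1.symm⟩
    rw [lam_ext (χ : Ideal (𝓞 L) → ℂ) hle, mul_sum]
    refine sum_congr rfl fun v _ => ?_
    rw [mul_sum]
  rw [sum_congr rfl h2]
  symm
  rw [sum_comm]
  refine sum_congr rfl (fun v _ => ?_)
  rw [sum_comm]
  refine sum_congr rfl (fun k _ => ?_)
  have hpos : 0 < nm v ^ k := Nat.pow_pos (by have := two_nm v; omega)
  split_ifs with hd
  · rw [sum_eq_single (n / nm v ^ k, nm v ^ k)]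
    · rw [if_pos rfl]
      ring
    · rintro ⟨a, b⟩ hab hne
      rw [Nat.mem_divisorsAntidiagonal] at hab
      rw [if_neg, mul_zero]
      intro h
      apply hne
      have h3 : b = nm v ^ k := h.symm
      have h4 : a * b = n := hab.1
      rw [h3] at h4
      rw [h3, ← h4, Nat.mul_div_cancel a hpos]
    · intro h
      exfalso
      apply h
      rw [Nat.mem_divisorsAntidiagonal]
      exact ⟨Nat.div_mul_cancel hd, by omega⟩
  · rw [mul_zero, sum_eq_zero]
    rintro ⟨a, b⟩ hab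
    rw [Nat.mem_divisorsAntidiagonal] at hab
    rw [if_neg, mul_zero]
    intro h
    apply hd
    refine ⟨a, ?_⟩
    have h3 : nm v ^ k = b := h
    rw [h3, mul_comm]
    exact hab.1.symm

/-- `|lam n| ≤ [L : ℚ] log n` -/
theorem lam_le (χ : Ideal (𝓞 L) → ℂ) (h1 : ∀ I, ‖χ I‖ ≤ 1) {n : ℕ} (hn : 1 ≤ n) :
    ‖lam χ n‖ ≤ Module.finrank ℚ L * Real.log n := by
  have hl : 0 ≤ Real.log n := Real.log_natCast_nonneg n
  obtain ⟨P, hP⟩ : ∃ P : Pl L → Prop, ∀ v, P v ↔ ∃ k : ℕ, 1 ≤ k ∧ k ≤ n ∧ nm v ^ k = n := ⟨_, fun _ => Iff.rfl⟩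
  have hT : ∀ v ∈ (PB L n).filter P, (nm v).minFac = n.minFac := by
    intro v hv
    rw [mem_filter, hP] at hv
    obtain ⟨_, k, hk, _, hk'⟩ := hv
    rw [← hk', Nat.pow_minFac (by omega)]
  have hv : ∀ v ∈ PB L n, ‖∑ k ∈ Icc 1 n, (if nm v ^ k = n then χ v.asIdeal ^ k * ((Real.log (nm v) : ℝ) : ℂ) else 0)‖ ≤
      if P v then Real.log n else 0 := by
    intro v hv
    by_cases hk : P v
    · rw [if_pos hk]
      obtain ⟨k, hk1, hk2, hk'⟩ := (hP v).1 hk
      rw [sum_eq_single k]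
      · rw [if_pos hk', norm_mul, norm_pow, Complex.norm_real, Real.norm_of_nonneg (Real.log_natCast_nonneg _)]
        have h2 : ‖χ v.asIdeal‖ ^ k ≤ 1 := pow_le_one₀ (norm_nonneg _) (h1 _)
        have h3 : Real.log (nm v) ≤ Real.log n := by
          rw [mem_PB] at hv
          have := two_nm v
          exact Real.log_le_log (by exact_mod_cast (by omega : 0 < nm v)) hv
        calc ‖χ v.asIdeal‖ ^ k * Real.log (nm v) ≤ 1 * Real.log (nm v) :=
              mul_le_mul_of_nonneg_right h2 (Real.log_natCast_nonneg _)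
          _ ≤ Real.log n := by rw [one_mul]; exact h3
      · intro j _ hj
        rw [if_neg]
        intro h
        apply hj
        rw [← hk'] at h
        exact Nat.pow_right_injective (two_nm v) h
      · intro h
        exact absurd (mem_Icc.2 ⟨hk1, hk2⟩) h
    · rw [if_neg hk, sum_eq_zero, norm_zero]
      intro k hk'
      rw [mem_Icc] at hk'
      rw [if_neg]
      intro h
      exact hk ((hP v).2 ⟨k, hk'.1, hk'.2, h⟩)
  unfold lam
  refine (norm_sum_le _ _).trans ((sum_le_sum hv).trans ?_)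
  rw [← sum_filter, sum_const, nsmul_eq_mul]
  apply mul_le_mul_of_nonneg_right _ hl
  exact_mod_cast H57.LI.prk_fibre n.minFac _ hT

end H1.PN
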