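import Pool.Agent.H1.PN.Lw
import Pool.Agent.H1.PN.Cv

/-!
# H1/PN/Dv: the derivatives of `L'/L` to the right of `1`

`dv`: `|∑ lam(n) (log n)^j n^(-s)| ≤ C el^(B (j + 1))` for `1 < Re s ≤ 2` (Leibniz' rule for `log · a = a * lam`).
-/

set_option autoImplicit false

open scoped NumberField
open NumberField IsDedekindDomain H63.MA H36.QA Finset
open scoped Classical

noncomputable section

namespace H1.PN

theorem pw_pw (i j : ℕ) (f : ℕ → ℂ) : pw i (pw j f) = pw (i + j) f := by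
  funext n
  unfold pw
  rw [pow_add]
  push_cast
  ring

theorem leib (f g : ℕ → ℂ) (j : ℕ) :
    pw j (LSeries.convolution f g) =
      ∑ k ∈ range (j + 1), ((j.choose k : ℕ) : ℂ) • LSeries.convolution (pw k f) (pw (j - k) g) := by
  funext n
  rw [Finset.sum_apply]
  rcases Nat.eq_zero_or_pos n with hn | hn
  · subst hn
    unfold pw
    simp only [LSeries.convolution_map_zero, mul_zero, Pi.smul_apply, smul_zero, sum_const_zero]
  have h1 : ∀ p ∈ n.divisorsAntidiagonal, ((Real.log n ^ j : ℝ) : ℂ) * (f p.1 * g p.2) =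
      ∑ k ∈ range (j + 1), ((j.choose k : ℕ) : ℂ) * (pw k f p.1 * pw (j - k) g p.2) := by
    intro p hp
    rw [Nat.mem_divisorsAntidiagonal] at hp
    have hp1 : p.1 ≠ 0 := by
      intro h
      rw [h, zero_mul] at hp
      omega
    have hp2 : p.2 ≠ 0 := by
      intro h
      rw [h, mul_zero] at hp
      omega
    have hl : Real.log n = Real.log p.1 + Real.log p.2 := by
      rw [← hp.1, Nat.cast_mul, Real.log_mul (by exact_mod_cast hp1) (by exact_mod_cast hp2)]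
    rw [hl, add_pow]
    push_cast
    rw [sum_mul]
    refine sum_congr rfl fun k _ => ?_
    unfold pw
    push_cast
    ring
  have h2 : pw j (LSeries.convolution f g) n = ((Real.log n ^ j : ℝ) : ℂ) * LSeries.convolution f g n := rfl
  rw [h2, LSeries.convolution_def]
  beta_reduce
  rw [mul_sum, sum_congr rfl h1, sum_comm]
  refine sum_congr rfl fun k _ => ?_
  rw [Pi.smul_apply, smul_eq_mul, LSeries.convolution_def]
  beta_reduce
  rw [mul_sum]

variable {L : Type} [Field L] [NumberField L]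

theorem lam_abs (χ : Ideal (𝓞 L) → ℂ) (h1 : ∀ I, ‖χ I‖ ≤ 1) :
    LSeries.abscissaOfAbsConv (lam χ) ≤ (1 : ℝ) := by
  apply LSeries.abscissaOfAbsConv_le_of_forall_lt_LSeriesSummable
  intro y hy
  have hε : 0 < (y - 1) / 2 := by linarith
  have h2 : LSeries.abscissaOfAbsConv (lam χ) ≤ (((y - 1) / 2 : ℝ) : EReal) + 1 := by
    apply LSeries.abscissaOfAbsConv_le_of_le_const_mul_rpow
    refine ⟨Module.finrank ℚ L / ((y - 1) / 2), fun n hn => ?_⟩
    have hn1 : 1 ≤ n := by omega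
    refine (lam_le χ h1 hn1).trans ?_
    have h3 : Real.log n ≤ (n : ℝ) ^ ((y - 1) / 2) / ((y - 1) / 2) := Real.log_le_rpow_div (Nat.cast_nonneg _) hε
    calc (Module.finrank ℚ L : ℝ) * Real.log n ≤ Module.finrank ℚ L * ((n : ℝ) ^ ((y - 1) / 2) / ((y - 1) / 2)) :=
          mul_le_mul_of_nonneg_left h3 (Nat.cast_nonneg _)
      _ = _ := by ring
  apply LSeriesSummable_of_abscissaOfAbsConv_lt_re
  refine h2.trans_lt ?_
  rw [Complex.ofReal_re]
  have h4 : (((y - 1) / 2 : ℝ) : EReal) + 1 = (((y - 1) / 2 + 1 : ℝ) : EReal) := by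
    rw [EReal.coe_add, EReal.coe_one]
  rw [h4]
  exact_mod_cast (by linarith : (y - 1) / 2 + 1 < y)

theorem lam_sum (χ : Ideal (𝓞 L) → ℂ) (h1 : ∀ I, ‖χ I‖ ≤ 1) (k : ℕ) {s : ℂ} (hs : 1 < s.re) :
    LSeriesSummable (pw k (lam χ)) s := by
  apply LSeriesSummable_of_abscissaOfAbsConv_lt_re
  rw [pw_abs]
  exact (lam_abs χ h1).trans_lt (by exact_mod_cast hs)

theorem rec (χ : Ideal (𝓞 L) →*₀ ℂ) (h1 : ∀ I, ‖χ I‖ ≤ 1) (j : ℕ) {s : ℂ} (hs : 1 < s.re) :
    LSeries (pw (j + 1) (lbf χ)) s = LSeries (lbf χ) s * LSeries (pw j (lam χ)) s +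
      ∑ k ∈ range j, ((j.choose (k + 1) : ℕ) : ℂ) *
        (LSeries (pw (k + 1) (lbf χ)) s * LSeries (pw (j - (k + 1)) (lam χ)) s) := by
  have ha : ∀ k, LSeriesSummable (pw k (lbf χ)) s := fun k => lb_sum (χ : Ideal (𝓞 L) → ℂ) (map_zero χ) h1 k hs
  have hl : ∀ k, LSeriesSummable (pw k (lam χ)) s := fun k => lam_sum (χ : Ideal (𝓞 L) → ℂ) h1 k hs
  have e : pw (j + 1) (lbf χ) =
      ∑ k ∈ range (j + 1), ((j.choose k : ℕ) : ℂ) • LSeries.convolution (pw k (lbf χ)) (pw (j - k) (lam χ)) := by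
    rw [← leib, ← cvl, pw_pw]
  rw [e, LSeries_sum (fun k _ => ((ha k).convolution (hl (j - k))).smul _), sum_range_succ']
  have h2 : ∀ k, LSeries (((j.choose k : ℕ) : ℂ) • LSeries.convolution (pw k (lbf χ)) (pw (j - k) (lam χ))) s =
      ((j.choose k : ℕ) : ℂ) * (LSeries (pw k (lbf χ)) s * LSeries (pw (j - k) (lam χ)) s) := by
    intro k
    rw [LSeries_smul, LSeries_convolution' (ha k) (hl (j - k))]
  rw [sum_congr rfl fun k _ => h2 (k + 1), h2 0, Nat.choose_zero_right, Nat.cast_one, one_mul, pw_zero, Nat.sub_zero,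
    add_comm]

theorem dv (n : ℕ) (hn : 0 < n) : ∃ B : ℕ, ∀ j : ℕ, ∃ C : ℝ, 1 ≤ C ∧
    ∀ (L : Type) [Field L] [NumberField L], TC L n → ∀ 𝔣 : Ideal (𝓞 L), 𝔣 ≠ ⊥ → ∀ χ : RC L 𝔣, Sq2 χ →
      ∀ s : ℂ, 1 < s.re → s.re ≤ 2 → ‖LSeries (pw j (lam χ.χ)) s‖ ≤ C * el L 𝔣 s.im ^ (B * (j + 1)) := by
  obtain ⟨C0, B1, hC0, hlow⟩ := low n hn
  obtain ⟨A, hA⟩ := up n hn
  choose U hU1 hU using hA
  obtain ⟨B, hB⟩ : ∃ B : ℕ, B = B1 + 1 + A := ⟨_, rfl⟩
  have key : ∀ j : ℕ, ∃ C : ℝ, 1 ≤ C ∧ ∀ i, i ≤ j →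
      ∀ (L : Type) [Field L] [NumberField L], TC L n → ∀ 𝔣 : Ideal (𝓞 L), 𝔣 ≠ ⊥ → ∀ χ : RC L 𝔣, Sq2 χ →
      ∀ s : ℂ, 1 < s.re → s.re ≤ 2 → ‖LSeries (pw i (lam χ.χ)) s‖ ≤ C * el L 𝔣 s.im ^ (B * (i + 1)) := by
    -- one step
    have step : ∀ m : ℕ, ∀ C : ℝ, 1 ≤ C → (∀ i, i < m →
        ∀ (L : Type) [Field L] [NumberField L], TC L n → ∀ 𝔣 : Ideal (𝓞 L), 𝔣 ≠ ⊥ → ∀ χ : RC L 𝔣, Sq2 χ →
        ∀ s : ℂ, 1 < s.re → s.re ≤ 2 → ‖LSeries (pw i (lam χ.χ)) s‖ ≤ C * el L 𝔣 s.im ^ (B * (i + 1))) →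
        ∀ (L : Type) [Field L] [NumberField L], TC L n → ∀ 𝔣 : Ideal (𝓞 L), 𝔣 ≠ ⊥ → ∀ χ : RC L 𝔣, Sq2 χ →
        ∀ s : ℂ, 1 < s.re → s.re ≤ 2 → ‖LSeries (pw m (lam χ.χ)) s‖ ≤
          (C0 * (U (m + 1) + ∑ k ∈ range m, (m.choose (k + 1) : ℝ) * U (k + 1) * C)) * el L 𝔣 s.im ^ (B * (m + 1)) := by
      intro m C hC hind L _ _ hL 𝔣 h𝔣 χ hχ s hs hs2
      obtain ⟨hℓ2, -, -, -⟩ := el_two 𝔣 h𝔣 s.im
      obtain ⟨ℓ, hℓ⟩ : ∃ ℓ : ℝ, ℓ = el L 𝔣 s.im := ⟨_, rfl⟩
      rw [← hℓ] at hℓ2 ⊢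
      have hℓ1 : 1 ≤ ℓ := by linarith
      have h1 := hlow L hL 𝔣 h𝔣 χ hχ s hs hs2
      rw [← hℓ] at h1
      have hb := lbd_rc_norm_le χ
      have h2 := rec χ.χ hb m hs
      obtain ⟨S, hS⟩ : ∃ S : ℂ, S = ∑ k ∈ range m, ((m.choose (k + 1) : ℕ) : ℂ) *
        (LSeries (pw (k + 1) (lbf χ.χ)) s * LSeries (pw (m - (k + 1)) (lam χ.χ)) s) := ⟨_, rfl⟩
      rw [← hS] at h2
      have h3 : LSeries (lbf χ.χ) s * LSeries (pw m (lam χ.χ)) s = LSeries (pw (m + 1) (lbf χ.χ)) s - S := by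
        rw [h2]
        ring
      have hu : ∀ k, ‖LSeries (pw k (lbf χ.χ)) s‖ ≤ U k * ℓ ^ (k + A) := by
        intro k
        rw [hℓ]
        exact hU k L hL 𝔣 h𝔣 χ hχ.non s hs hs2
      have hS' : ‖S‖ ≤ ∑ k ∈ range m, (m.choose (k + 1) : ℝ) * ((U (k + 1) * ℓ ^ (k + 1 + A)) *
          (C * ℓ ^ (B * (m - (k + 1) + 1)))) := by
        rw [hS]
        refine (norm_sum_le _ _).trans (sum_le_sum fun k hk => ?_)
        rw [mem_range] at hk
        rw [norm_mul, norm_mul, Complex.norm_natCast]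
        apply mul_le_mul_of_nonneg_left _ (Nat.cast_nonneg _)
        apply mul_le_mul (hu (k + 1)) _ (norm_nonneg _)
        · have := hU1 (k + 1)
          positivity
        · rw [hℓ]
          exact hind (m - (k + 1)) (by omega) L hL 𝔣 h𝔣 χ hχ s hs hs2
      have h4 : ‖LSeries (lbf χ.χ) s * LSeries (pw m (lam χ.χ)) s‖ ≤ U (m + 1) * ℓ ^ (m + 1 + A) +
          ∑ k ∈ range m, (m.choose (k + 1) : ℝ) * ((U (k + 1) * ℓ ^ (k + 1 + A)) *
          (C * ℓ ^ (B * (m - (k + 1) + 1)))) := by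
        rw [h3]
        exact (norm_sub_le _ _).trans (add_le_add (hu (m + 1)) hS')
      rw [norm_mul] at h4
      have hC00 : 0 ≤ C0 := by linarith
      obtain ⟨x, hx⟩ : ∃ x : ℝ, x = ‖LSeries (pw m (lam χ.χ)) s‖ := ⟨_, rfl⟩
      rw [← hx] at h4 ⊢
      have hx0 : 0 ≤ x := hx ▸ norm_nonneg _
      calc x = 1 * x := (one_mul _).symm
        _ ≤ (C0 * ℓ ^ B1 * ‖LSeries (lbf χ.χ) s‖) * x := mul_le_mul_of_nonneg_right h1 hx0
        _ = C0 * ℓ ^ B1 * (‖LSeries (lbf χ.χ) s‖ * x) := by ring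
        _ ≤ C0 * ℓ ^ B1 * (U (m + 1) * ℓ ^ (m + 1 + A) +
          ∑ k ∈ range m, (m.choose (k + 1) : ℝ) * ((U (k + 1) * ℓ ^ (k + 1 + A)) *
          (C * ℓ ^ (B * (m - (k + 1) + 1))))) := mul_le_mul_of_nonneg_left h4 (by positivity)
        _ = C0 * (U (m + 1) * ℓ ^ (B1 + (m + 1 + A)) +
          ∑ k ∈ range m, (m.choose (k + 1) : ℝ) * U (k + 1) * C * ℓ ^ (B1 + (k + 1 + A) + B * (m - (k + 1) + 1))) := by
            rw [mul_add, mul_add, mul_sum, mul_sum]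
            congr 1
            · rw [pow_add]
              ring
            · refine sum_congr rfl fun k _ => ?_
              rw [pow_add, pow_add]
              ring
        _ ≤ C0 * (U (m + 1) * ℓ ^ (B * (m + 1)) +
          ∑ k ∈ range m, (m.choose (k + 1) : ℝ) * U (k + 1) * C * ℓ ^ (B * (m + 1))) := by
            apply mul_le_mul_of_nonneg_left _ hC00
            apply add_le_add
            · apply mul_le_mul_of_nonneg_left _ (by linarith [hU1 (m + 1)])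
              apply pow_le_pow_right₀ hℓ1
              rw [hB]
              nlinarith [Nat.zero_le (m * (B1 + A))]
            · refine sum_le_sum fun k hk => ?_
              rw [mem_range] at hk
              apply mul_le_mul_of_nonneg_left
              · apply pow_le_pow_right₀ hℓ1
                obtain ⟨r, hr⟩ : ∃ r, m = k + 1 + r := ⟨m - (k + 1), by omega⟩
                have e1 : m - (k + 1) = r := by omega
                rw [e1, hr, hB]
                nlinarith [Nat.zero_le (k * (B1 + A))]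
              · have h5 := hU1 (k + 1)
                positivity
        _ = _ := by
            rw [← sum_mul]
            ring
    intro j
    induction j with
    | zero =>
      refine ⟨C0 * (U 1 + 0), ?_, ?_⟩
      · have := hU1 1
        rw [add_zero]
        exact one_le_mul_of_one_le_of_one_le hC0 this
      · intro i hi
        have hi0 : i = 0 := by omega
        subst hi0
        intro L _ _ hL 𝔣 h𝔣 χ hχ s hs hs2
        have h := step 0 1 le_rfl (fun i hi => absurd hi (by omega)) L hL 𝔣 h𝔣 χ hχ s hs hs2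
        rw [range_zero, sum_empty] at h
        exact h
    | succ j ih =>
      obtain ⟨C, hC, hind⟩ := ih
      obtain ⟨C', hC'⟩ : ∃ C' : ℝ, C' = C0 * (U (j + 1 + 1) +
        ∑ k ∈ range (j + 1), ((j + 1).choose (k + 1) : ℝ) * U (k + 1) * C) := ⟨_, rfl⟩
      refine ⟨max C C', le_max_of_le_left hC, ?_⟩
      intro i hi L _ _ hL 𝔣 h𝔣 χ hχ s hs hs2
      have hℓ0 : 0 ≤ el L 𝔣 s.im := by linarith [(el_two 𝔣 h𝔣 s.im).1]
      rcases Nat.lt_or_ge i (j + 1) with h | h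
      · refine (hind i (by omega) L hL 𝔣 h𝔣 χ hχ s hs hs2).trans ?_
        exact mul_le_mul_of_nonneg_right (le_max_left _ _) (by positivity)
      · have hi' : i = j + 1 := by omega
        subst hi'
        have h' := step (j + 1) C hC (fun i hi => hind i (by omega)) L hL 𝔣 h𝔣 χ hχ s hs hs2
        rw [← hC'] at h'
        exact h'.trans (mul_le_mul_of_nonneg_right (le_max_right _ _) (by positivity))
  refine ⟨B, fun j => ?_⟩
  obtain ⟨C, hC, h⟩ := key j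
  exact ⟨C, hC, fun L _ _ hL 𝔣 h𝔣 χ hχ s hs hs2 => h j le_rfl L hL 𝔣 h𝔣 χ hχ s hs hs2⟩

end H1.PN
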