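import Pool.Agent.H1.PN.Up
import Pool.Agent.H57.AN.Che

/-!
# H1/PN/Eu: the Euler product and the zeta function near `1`, uniformly in the field of degree `n`

`eul2`: `H63.MA.eul_two` with a constant depending on the degree only. `zub`: `ζ_L(σ) ≤ C (1 + log (dd L))^A / (σ - 1)`.
-/

set_option autoImplicit false

open scoped NumberField
open NumberField IsDedekindDomain H63.MA H36.QA Finset
open scoped Classical

noncomputable section

namespace H1.PN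

theorem eul2 (n : ℕ) : ∃ C : ℝ, 1 ≤ C ∧ ∀ (K : Type) [Field K] [NumberField K], Module.finrank ℚ K = n →
    ∀ χ : Ideal (𝓞 K) →*₀ ℂ, (∀ I, ‖χ I‖ ≤ 1) → ∀ s : ℝ, 1 < s → s ≤ 2 →
      ‖Lser χ s‖ ≤ C * Real.exp (∑' v : Pl K, (χ v.asIdeal).re * (nm v : ℝ) ^ (-s)) ∧
      Real.exp (∑' v : Pl K, (χ v.asIdeal).re * (nm v : ℝ) ^ (-s)) ≤ C * ‖Lser χ s‖ := by
  obtain ⟨B, hB1, hBs⟩ := H57.AN.sq2 n
  refine ⟨Real.exp (4 * B), Real.one_le_exp (by linarith), ?_⟩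
  intro K _ _ hK χ hχ s hs _
  have hf : ∀ v : Pl K, ‖eula_f χ s v.asIdeal‖ ≤ (nm v : ℝ) ^ (-s) := by
    intro v
    have := eula_norm_le χ hχ s v.asIdeal
    rw [if_neg v.ne_bot] at this
    exact this
  have hfre : ∀ v : Pl K, (eula_f χ s v.asIdeal).re = (χ v.asIdeal).re * (nm v : ℝ) ^ (-s) := by
    intro v
    unfold eula_f nm
    rw [Complex.re_mul_ofReal]
  have hfhalf : ∀ v : Pl K, ‖eula_f χ s v.asIdeal‖ ≤ 1 / 2 := by
    intro v
    refine (hf v).trans ?_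
    have h1 : (nm v : ℝ) ^ (-s) ≤ (nm v : ℝ) ^ (-1 : ℝ) :=
      Real.rpow_le_rpow_of_exponent_le (by linarith [eula_two_le v]) (by linarith)
    refine h1.trans ?_
    rw [Real.rpow_neg_one, ← one_div]
    exact one_div_le_one_div_of_le (by norm_num) (eula_two_le v)
  have hfsq : ∀ v : Pl K, ‖eula_f χ s v.asIdeal‖ ^ 2 ≤ (1 : ℝ) / (nm v : ℝ) ^ 2 := by
    intro v
    have h1 : (nm v : ℝ) ^ (-s) ≤ (nm v : ℝ) ^ (-1 : ℝ) :=
      Real.rpow_le_rpow_of_exponent_le (by linarith [eula_two_le v]) (by linarith)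
    have h2 := pow_le_pow_left₀ (norm_nonneg _) ((hf v).trans h1) 2
    refine h2.trans (le_of_eq ?_)
    rw [Real.rpow_neg_one, inv_pow, one_div]
  have hFsq : ∀ F : Finset (Pl K), ∑ v ∈ F, ‖eula_f χ s v.asIdeal‖ ^ 2 ≤ B := by
    intro F
    exact (Finset.sum_le_sum fun v _ => hfsq v).trans (hBs K hK F)
  have hsumre : Summable fun v : Pl K => (χ v.asIdeal).re * (nm v : ℝ) ^ (-s) := by
    apply Summable.of_norm_bounded (pz_summable K hs)
    intro v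
    rw [← hfre v]
    exact (Complex.abs_re_le_norm _).trans (hf v)
  obtain ⟨R, hR⟩ : ∃ R : ℝ, R = ∑' v : Pl K, (χ v.asIdeal).re * (nm v : ℝ) ^ (-s) := ⟨_, rfl⟩
  rw [← hR]
  have hRt : Filter.Tendsto (fun F : Finset (Pl K) => ∑ v ∈ F, (eula_f χ s v.asIdeal).re)
      Filter.atTop (nhds R) := by
    have := hsumre.hasSum
    rw [← hR] at this
    refine Filter.Tendsto.congr ?_ this
    intro F
    exact Finset.sum_congr rfl fun v _ => (hfre v).symm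
  have ht := eula_tendsto χ hχ hs
  have ht2 : Filter.Tendsto (fun F : Finset (Pl K) =>
      (∏ v ∈ F, ‖1 - eula_f χ s v.asIdeal‖) * ‖Lser χ s‖) Filter.atTop (nhds 1) := by
    have h1 := ht.norm
    rw [norm_one] at h1
    refine h1.congr ?_
    intro F
    rw [eula_prod χ hχ hs F, norm_mul, norm_prod]
  have hup : ∀ F : Finset (Pl K), (∏ v ∈ F, ‖1 - eula_f χ s v.asIdeal‖) * ‖Lser χ s‖ ≤
      Real.exp (-(∑ v ∈ F, (eula_f χ s v.asIdeal).re) + 4 * B) * ‖Lser χ s‖ := by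
    intro F
    apply mul_le_mul_of_nonneg_right _ (norm_nonneg _)
    have h1 : ∏ v ∈ F, ‖1 - eula_f χ s v.asIdeal‖ ≤ ∏ v ∈ F,
        Real.exp (-(eula_f χ s v.asIdeal).re + 4 * ‖eula_f χ s v.asIdeal‖ ^ 2) :=
      Finset.prod_le_prod (fun _ _ => norm_nonneg _) fun v _ => eula_upper _
    refine h1.trans ?_
    rw [← Real.exp_sum, Finset.sum_add_distrib, ← Finset.mul_sum, Finset.sum_neg_distrib]
    exact Real.exp_le_exp.2 (by linarith [hFsq F])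
  have hlo : ∀ F : Finset (Pl K), Real.exp (-(∑ v ∈ F, (eula_f χ s v.asIdeal).re) - 4 * B) *
      ‖Lser χ s‖ ≤ (∏ v ∈ F, ‖1 - eula_f χ s v.asIdeal‖) * ‖Lser χ s‖ := by
    intro F
    apply mul_le_mul_of_nonneg_right _ (norm_nonneg _)
    have h1 : ∏ v ∈ F,
        Real.exp (-(eula_f χ s v.asIdeal).re - 4 * ‖eula_f χ s v.asIdeal‖ ^ 2) ≤
        ∏ v ∈ F, ‖1 - eula_f χ s v.asIdeal‖ :=
      Finset.prod_le_prod (fun _ _ => (Real.exp_pos _).le) fun v _ => eula_lower _ (hfhalf v)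
    refine le_trans ?_ h1
    rw [← Real.exp_sum, Finset.sum_sub_distrib, ← Finset.mul_sum, Finset.sum_neg_distrib]
    exact Real.exp_le_exp.2 (by linarith [hFsq F])
  have hup2 : 1 ≤ Real.exp (-R + 4 * B) * ‖Lser χ s‖ := by
    refine le_of_tendsto_of_tendsto' ht2 ?_ hup
    apply Filter.Tendsto.mul_const
    apply (Real.continuous_exp.tendsto _).comp
    exact (hRt.neg).add_const _
  have hlo2 : Real.exp (-R - 4 * B) * ‖Lser χ s‖ ≤ 1 := by
    refine le_of_tendsto_of_tendsto' ?_ ht2 hlo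
    apply Filter.Tendsto.mul_const
    apply (Real.continuous_exp.tendsto _).comp
    exact (hRt.neg).sub_const _
  constructor
  · have h1 : Real.exp (-R - 4 * B) * (Real.exp (4 * B) * Real.exp R) = 1 := by
      rw [← Real.exp_add, ← Real.exp_add]
      have : -R - 4 * B + (4 * B + R) = 0 := by ring
      rw [this, Real.exp_zero]
    rw [← h1] at hlo2
    exact le_of_mul_le_mul_left hlo2 (Real.exp_pos _)
  · have h1 : Real.exp (-R + 4 * B) * Real.exp R = Real.exp (4 * B) := by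
      rw [← Real.exp_add]
      congr 1
      ring
    have h2 := mul_le_mul_of_nonneg_right hup2 (Real.exp_pos R).le
    calc Real.exp R = 1 * Real.exp R := (one_mul _).symm
      _ ≤ Real.exp (-R + 4 * B) * ‖Lser χ s‖ * Real.exp R := h2
      _ = Real.exp (4 * B) * ‖Lser χ s‖ := by rw [← h1]; ring

/-- comparison of sums with decreasing weights -/
theorem acmp (z g w : ℕ → ℝ) (M : ℕ) (h : ∀ m, 1 ≤ m → m ≤ M → ∑ n ∈ Icc 1 m, z n ≤ ∑ n ∈ Icc 1 m, g n)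
    (hw : ∀ n, 1 ≤ n → w (n + 1) ≤ w n) (hw0 : ∀ n, 1 ≤ n → 0 ≤ w n) :
    ∑ n ∈ Icc 1 M, z n * w n ≤ ∑ n ∈ Icc 1 M, g n * w n := by
  have e := abl (fun n => g n - z n) w (Nat.zero_le M)
  have e1 : Ioc 0 M = Icc 1 M := by
    ext x
    simp only [mem_Ioc, mem_Icc]
    omega
  rw [e1] at e
  have e2 : Icc 1 0 = (∅ : Finset ℕ) := by simp
  rw [e2, sum_empty, zero_mul, sub_zero] at e
  have h1 : ∑ n ∈ Icc 1 M, (g n - z n) * w n = ∑ n ∈ Icc 1 M, g n * w n - ∑ n ∈ Icc 1 M, z n * w n := by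
    rw [← sum_sub_distrib]
    exact sum_congr rfl fun n _ => by ring
  rw [h1] at e
  have h2 : ∑ n ∈ Icc 1 M, (∑ k ∈ Icc 1 n, (g k - z k)) * (w (n + 1) - w n) ≤ 0 := by
    apply sum_nonpos
    intro n hn
    rw [mem_Icc] at hn
    apply mul_nonpos_of_nonneg_of_nonpos
    · rw [sum_sub_distrib]
      linarith [h n hn.1 hn.2]
    · linarith [hw n hn.1]
  rcases Nat.eq_zero_or_pos M with hM | hM
  · rw [hM, e2, sum_empty, sum_empty]
  have h3 : 0 ≤ (∑ k ∈ Icc 1 M, (g k - z k)) * w (M + 1) := by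
    apply mul_nonneg
    · rw [sum_sub_distrib]
      linarith [h M hM le_rfl]
    · exact hw0 _ (by omega)
  linarith

theorem har_low (m : ℕ) (hm : 1 ≤ m) : 1 + Real.log m ≤ ∑ n ∈ Icc 1 m, 2 / (n : ℝ) := by
  have h1 := log_add_one_le_harmonic m
  rw [harmonic_eq_sum_Icc] at h1
  push_cast at h1
  have h2 : Real.log m ≤ Real.log ((m : ℝ) + 1) := by
    apply Real.log_le_log
    · exact_mod_cast hm
    · linarith
  have h3 : (1 : ℝ) ≤ ∑ n ∈ Icc 1 m, ((n : ℝ))⁻¹ := by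
    have := single_le_sum (f := fun n : ℕ => ((n : ℝ))⁻¹) (s := Icc 1 m) (fun i _ => by positivity)
      (mem_Icc.2 ⟨le_rfl, hm⟩)
    simpa using this
  have h4 : ∑ n ∈ Icc 1 m, 2 / (n : ℝ) = 2 * ∑ n ∈ Icc 1 m, ((n : ℝ))⁻¹ := by
    rw [mul_sum]
    exact sum_congr rfl fun n _ => div_eq_mul_inv _ _
  rw [h4]
  linarith

theorem zub (n : ℕ) (hn : 0 < n) : ∃ (C : ℝ) (A : ℕ), 1 ≤ C ∧ ∀ (L : Type) [Field L] [NumberField L], TC L n →
    ∀ σ : ℝ, 1 < σ → σ ≤ 2 → ‖Lser (lbd_triv L) σ‖ ≤ C * (1 + Real.log (dd L)) ^ A / (σ - 1) := by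
  obtain ⟨C, A, hC, hh⟩ := H57.AN.hsu n hn
  refine ⟨4 * C, A, by linarith, fun L _ _ hL σ hσ hσ2 => ?_⟩
  obtain ⟨κ, hκ⟩ : ∃ κ : ℝ, κ = σ - 1 := ⟨_, rfl⟩
  have hκ0 : 0 < κ := by linarith
  have hκ1 : κ ≤ 1 := by linarith
  have hdd : 0 ≤ Real.log (dd L) := Real.log_nonneg (one_le_dd L)
  obtain ⟨H, hH⟩ : ∃ H : ℝ, H = C * (1 + Real.log (dd L)) ^ A := ⟨_, rfl⟩
  have hH0 : 0 < H := by
    rw [hH]
    positivity
  have h0 : lbd_triv L (⊥ : Ideal (𝓞 L)) = 0 := map_zero (lbd_triv L)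
  rw [lbd_lser_eq (lbd_triv L) h0 lbd_triv_norm hσ]
  have hs : 1 < ((σ : ℝ) : ℂ).re := by rwa [Complex.ofReal_re]
  have hsum := lb_sum (lbd_triv L : Ideal (𝓞 L) → ℂ) h0 lbd_triv_norm 0 hs
  rw [pw_zero] at hsum
  rw [← hκ, mul_assoc 4 C, ← hH]
  refine ser_le hsum 1 fun M hM => ?_
  refine (norm_sum_le _ _).trans ?_
  have e1 : ∀ m ∈ Icc 1 M, ‖LSeries.term (lbf (lbd_triv L)) (σ : ℂ) m‖ =
      ‖lbf (lbd_triv L) m‖ / m * (m : ℝ) ^ (-κ) := by
    intro m hm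
    rw [mem_Icc] at hm
    have hm0 : (0 : ℝ) < m := by exact_mod_cast hm.1
    rw [LSeries.term_of_ne_zero (by omega), norm_div, Complex.norm_natCast_cpow_of_pos (by omega),
      Complex.ofReal_re, div_eq_mul_inv, div_eq_mul_inv, mul_assoc, ← Real.rpow_neg hm0.le,
      ← Real.rpow_neg_one (m : ℝ), ← Real.rpow_add hm0]
    congr 2
    rw [hκ]
    ring
  rw [sum_congr rfl e1]
  have h1 : ∀ m, 1 ≤ m → m ≤ M → ∑ n ∈ Icc 1 m, ‖lbf (lbd_triv L) n‖ / n ≤ ∑ n ∈ Icc 1 m, H * (2 / (n : ℝ)) := by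
    intro m hm _
    have h2 := (lb_head (lbd_triv L : Ideal (𝓞 L) → ℂ) lbd_triv_norm m).trans
      (hh L hL (m : ℝ) (by exact_mod_cast hm))
    rw [← hH] at h2
    rw [← mul_sum]
    exact h2.trans (mul_le_mul_of_nonneg_left (har_low m hm) hH0.le)
  refine (acmp _ _ (fun m : ℕ => (m : ℝ) ^ (-κ)) M h1 ?_ ?_).trans ?_
  · intro m hm
    have hm0 : (0 : ℝ) < m := by exact_mod_cast hm
    apply Real.rpow_le_rpow_of_nonpos hm0 _ (by linarith)
    push_cast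
    linarith
  · intro m _
    positivity
  have e2 : ∀ m ∈ Icc 1 M, H * (2 / (m : ℝ)) * (m : ℝ) ^ (-κ) = 2 * H * (m : ℝ) ^ (-1 - κ) := by
    intro m hm
    rw [mem_Icc] at hm
    have hm0 : (0 : ℝ) < m := by exact_mod_cast hm.1
    rw [show -1 - κ = -1 + -κ by ring, Real.rpow_add hm0, Real.rpow_neg_one]
    ring
  rw [sum_congr rfl e2, ← mul_sum]
  have e3 : Icc 1 M = insert 1 (Ioc 1 M) := by
    ext x
    simp only [mem_Ioc, mem_insert, mem_Icc]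
    omega
  have n1 : (1 : ℕ) ∉ Ioc 1 M := by simp
  rw [e3, sum_insert n1]
  have h3 := rp_sum hκ0 le_rfl hM
  rw [Nat.cast_one, Real.one_rpow] at h3 ⊢
  have h4 : (1 - (M : ℝ) ^ (-κ)) / κ ≤ 1 / κ := by
    apply div_le_div_of_nonneg_right _ hκ0.le
    have : 0 ≤ (M : ℝ) ^ (-κ) := by positivity
    linarith
  have h5 : 1 ≤ 1 / κ := by
    rw [le_div_iff₀ hκ0]
    linarith
  calc 2 * H * (1 + ∑ x ∈ Ioc 1 M, (x : ℝ) ^ (-1 - κ)) ≤ 2 * H * (1 / κ + 1 / κ) := by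
        apply mul_le_mul_of_nonneg_left _ (by linarith)
        linarith
    _ = 4 * H / κ := by ring

end H1.PN
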