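import Pool.Agent.H1.PN.Abl
import Pool.Agent.H1.LS4.Ics
import Pool.Agent.H57.AN.Cui
import Pool.Agent.H63.MA.LBd

/-!
# H1/PN/Up: upper bounds for the derivatives of Hecke L-series in `Re s > 1`

`cf f n = ∑_{N I = n} f(I)` (this is `lbf f`), `pw k a n = (log n)^k a n`, `el L 𝔣 t = 2 + log (dd L) + log (N 𝔣) + log (2 + |t|)`.
`up`: `|∑ χ(n) (log n)^k n^(-s)| ≤ C el^(k + A)` for `1 < Re s ≤ 2`, uniformly in the field of degree `n`.
-/

set_option autoImplicit false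

open scoped NumberField
open NumberField IsDedekindDomain H63.MA H36.QA Finset
open scoped Classical

noncomputable section

namespace H1.PN

/-- `(log n)^k f n` -/
def pw (k : ℕ) (f : ℕ → ℂ) (n : ℕ) : ℂ := ((Real.log n ^ k : ℝ) : ℂ) * f n

/-- the size of the logarithm of the conductor -/
def el (L : Type) [Field L] [NumberField L] (𝔣 : Ideal (𝓞 L)) (t : ℝ) : ℝ :=
  2 + Real.log (dd L) + Real.log (Ideal.absNorm 𝔣) + Real.log (2 + |t|)

theorem pw_zero (f : ℕ → ℂ) : pw 0 f = f := by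
  funext n
  simp [pw]

theorem pw_iter (k : ℕ) (f : ℕ → ℂ) : pw k f = LSeries.logMul^[k] f := by
  induction k with
  | zero => simpa using pw_zero f
  | succ k ih =>
    rw [Function.iterate_succ', Function.comp_apply, ← ih]
    funext n
    unfold LSeries.logMul pw
    rw [Complex.ofReal_pow, Complex.ofReal_pow, Complex.natCast_log, pow_succ]
    ring

theorem pw_abs (k : ℕ) (f : ℕ → ℂ) :
    LSeries.abscissaOfAbsConv (pw k f) = LSeries.abscissaOfAbsConv f := by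
  rw [pw_iter]
  exact LSeries.absicssaOfAbsConv_logPowMul

theorem pw_term (k : ℕ) (f : ℕ → ℂ) (s : ℂ) {n : ℕ} (hn : n ≠ 0) :
    LSeries.term (pw k f) s n = f n * wt k s n := by
  rw [LSeries.term_of_ne_zero hn]
  unfold pw wt
  rw [Complex.cpow_neg, div_eq_mul_inv]
  push_cast
  ring

variable {L : Type} [Field L] [NumberField L]

theorem lb_abs (f : Ideal (𝓞 L) → ℂ) (h0 : f ⊥ = 0) (h1 : ∀ I, ‖f I‖ ≤ 1) :
    LSeries.abscissaOfAbsConv (lbf f) ≤ (1 : ℝ) := by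
  apply LSeries.abscissaOfAbsConv_le_of_forall_lt_LSeriesSummable
  intro y hy
  exact (lbf_hasSum f h0 h1 hy).summable

theorem lb_sum (f : Ideal (𝓞 L) → ℂ) (h0 : f ⊥ = 0) (h1 : ∀ I, ‖f I‖ ≤ 1) (k : ℕ) {s : ℂ}
    (hs : 1 < s.re) : LSeriesSummable (pw k (lbf f)) s := by
  apply LSeriesSummable_of_abscissaOfAbsConv_lt_re
  rw [pw_abs]
  exact (lb_abs f h0 h1).trans_lt (by exact_mod_cast hs)

/-- the sum of `|a(n)| / n` -/
theorem lb_head (f : Ideal (𝓞 L) → ℂ) (h1 : ∀ I, ‖f I‖ ≤ 1) (N : ℕ) :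
    ∑ n ∈ Icc 1 N, ‖lbf f n‖ / n ≤ ∑ I ∈ IN L (N : ℝ), (1 : ℝ) / Ideal.absNorm I := by
  have e := lbf_partial (K := L) (fun I => (((1 : ℝ) / Ideal.absNorm I : ℝ) : ℂ)) (N : ℝ)
  rw [Nat.floor_natCast, ← Complex.ofReal_sum] at e
  have h2 : ∀ n ∈ Icc 1 N, ‖lbf f n‖ / n ≤ (lbf (K := L) (fun I => (((1 : ℝ) / Ideal.absNorm I : ℝ) : ℂ)) n).re := by
    intro n _
    unfold lbf
    rw [← Complex.ofReal_sum, Complex.ofReal_re]
    have h3 : ‖∑ I ∈ (Ideal.finite_setOfPred_absNorm_eq (S := 𝓞 L) n).toFinset, f I‖ ≤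
        ∑ I ∈ (Ideal.finite_setOfPred_absNorm_eq (S := 𝓞 L) n).toFinset, (1 : ℝ) :=
      (norm_sum_le _ _).trans (sum_le_sum fun I _ => h1 I)
    have h4 : ∑ I ∈ (Ideal.finite_setOfPred_absNorm_eq (S := 𝓞 L) n).toFinset, (1 : ℝ) / Ideal.absNorm I =
        (∑ I ∈ (Ideal.finite_setOfPred_absNorm_eq (S := 𝓞 L) n).toFinset, (1 : ℝ)) / n := by
      rw [sum_div]
      refine sum_congr rfl fun I hI => ?_
      rw [lbf_mem] at hI
      rw [hI]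
    rw [h4]
    exact div_le_div_of_nonneg_right h3 (Nat.cast_nonneg _)
  refine (sum_le_sum h2).trans (le_of_eq ?_)
  rw [← Complex.re_sum, e, Complex.ofReal_re]

theorem el_two (𝔣 : Ideal (𝓞 L)) (h𝔣 : 𝔣 ≠ ⊥) (t : ℝ) :
    2 ≤ el L 𝔣 t ∧ 0 ≤ Real.log (dd L) ∧ 0 ≤ Real.log (Ideal.absNorm 𝔣) ∧ 0 ≤ Real.log (2 + |t|) := by
  have h1 : 0 ≤ Real.log (dd L) := Real.log_nonneg (one_le_dd L)
  have h2 : 0 ≤ Real.log (Ideal.absNorm 𝔣) := by
    apply Real.log_nonneg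
    have : Ideal.absNorm 𝔣 ≠ 0 := by
      rw [Ne, Ideal.absNorm_eq_zero_iff]
      exact h𝔣
    exact_mod_cast Nat.one_le_iff_ne_zero.2 this
  have h3 : 0 ≤ Real.log (2 + |t|) := Real.log_nonneg (by linarith [abs_nonneg t])
  refine ⟨?_, h1, h2, h3⟩
  unfold el
  linarith

/-- a series whose partial sums are bounded from some point on -/
theorem ser_le {f : ℕ → ℂ} {s : ℂ} (h : LSeriesSummable f s) {B : ℝ} (N : ℕ)
    (hB : ∀ M, N ≤ M → ‖∑ n ∈ Icc 1 M, LSeries.term f s n‖ ≤ B) : ‖LSeries f s‖ ≤ B := by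
  have ht : Filter.Tendsto (fun M : ℕ => ∑ n ∈ range (M + 1), LSeries.term f s n) Filter.atTop
      (nhds (LSeries f s)) :=
    (h.hasSum.tendsto_sum_nat).comp (Filter.tendsto_add_atTop_nat 1)
  refine le_of_tendsto ht.norm ?_
  filter_upwards [Filter.eventually_ge_atTop N] with M hM
  have e : ∑ n ∈ range (M + 1), LSeries.term f s n = ∑ n ∈ Icc 1 M, LSeries.term f s n := by
    rw [sum_range_succ']
    rw [LSeries.term_zero, add_zero]
    rw [range_eq_Ico, sum_Ico_add' (fun n => LSeries.term f s n) 0 M 1, zero_add]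
    rfl
  rw [e]
  exact hB M hM

theorem up (n : ℕ) (hn : 0 < n) : ∃ A : ℕ, ∀ k : ℕ, ∃ C : ℝ, 1 ≤ C ∧
    ∀ (L : Type) [Field L] [NumberField L], TC L n → ∀ 𝔣 : Ideal (𝓞 L), 𝔣 ≠ ⊥ → ∀ χ : RC L 𝔣, χ.Non →
      ∀ s : ℂ, 1 < s.re → s.re ≤ 2 → ‖LSeries (pw k (lbf χ.χ)) s‖ ≤ C * el L 𝔣 s.im ^ (k + A) := by
  obtain ⟨C0, A0, δ, hC0, hδ, hδ1, hics⟩ := H1.LS4.ics n hn
  obtain ⟨C1, A1, hC1, hhsu⟩ := H57.AN.hsu n hn
  refine ⟨A1 + 1, fun k => ?_⟩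
  obtain ⟨K, hK⟩ : ∃ K : ℝ, K = 4 + 2 / δ * (Real.log C0 + A0 + 2) := ⟨_, rfl⟩
  have hlC0 : 0 ≤ Real.log C0 := Real.log_nonneg hC0
  have hA0 : (0 : ℝ) ≤ A0 := Nat.cast_nonneg _
  have hK1 : 1 ≤ K := by
    rw [hK]
    have : 0 ≤ 2 / δ * (Real.log C0 + A0 + 2) := by positivity
    linarith
  have htc : 0 ≤ tc k δ := by
    unfold tc
    positivity
  refine ⟨K ^ (k + 1) * C1 + tc k δ, ?_, ?_⟩
  · have h1 : 1 ≤ K ^ (k + 1) := one_le_pow₀ hK1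
    nlinarith
  intro L _ _ hTC 𝔣 h𝔣 χ hχ s hs hs2
  obtain ⟨hℓ2, hl1, hl2, hl3⟩ := el_two 𝔣 h𝔣 s.im
  obtain ⟨ℓ, hℓ⟩ : ∃ ℓ : ℝ, ℓ = el L 𝔣 s.im := ⟨_, rfl⟩
  rw [← hℓ] at hℓ2 ⊢
  have hb := lbd_rc_norm_le χ
  have hz : χ.χ (⊥ : Ideal (𝓞 L)) = 0 := map_zero χ.χ
  obtain ⟨q, hq⟩ : ∃ q : ℝ, q = dd L * Ideal.absNorm 𝔣 := ⟨_, rfl⟩
  have hdd := one_le_dd L
  have hN1 : (1 : ℝ) ≤ Ideal.absNorm 𝔣 := by
    have : Ideal.absNorm 𝔣 ≠ 0 := by
      rw [Ne, Ideal.absNorm_eq_zero_iff]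
      exact h𝔣
    exact_mod_cast Nat.one_le_iff_ne_zero.2 this
  have hq1 : 1 ≤ q := by
    rw [hq]
    nlinarith
  obtain ⟨Q, hQ⟩ : ∃ Q : ℝ, Q = C0 * q ^ A0 := ⟨_, rfl⟩
  have hQ1 : 1 ≤ Q := by
    rw [hQ]
    have : 1 ≤ q ^ A0 := one_le_pow₀ hq1
    nlinarith
  have hns : 0 ≤ ‖s‖ := norm_nonneg s
  have ha : ∀ m : ℕ, 1 ≤ m → ‖∑ j ∈ Icc 1 m, lbf χ.χ j‖ ≤ Q * (m : ℝ) ^ (1 - δ) := by
    intro m hm
    have h1 := hics L hTC 𝔣 h𝔣 χ hχ (m : ℝ) (by exact_mod_cast hm)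
    rw [← lbf_partial, Nat.floor_natCast] at h1
    rw [hQ, hq]
    exact h1
  obtain ⟨X, hX⟩ : ∃ X : ℝ, X = (Q * (1 + ‖s‖)) ^ (2 / δ) := ⟨_, rfl⟩
  have hQs : 1 ≤ Q * (1 + ‖s‖) := by nlinarith
  have hX1 : 1 ≤ X := by
    rw [hX]
    exact Real.one_le_rpow hQs (by positivity)
  obtain ⟨N, hN⟩ : ∃ N : ℕ, N = ⌈X⌉₊ := ⟨_, rfl⟩
  have hNX : X ≤ N := by
    rw [hN]
    exact Nat.le_ceil X
  have hN1' : 1 ≤ N := by
    have : (1 : ℝ) ≤ N := hX1.trans hNX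
    exact_mod_cast this
  have hN2 : (N : ℝ) ≤ 2 * X := by
    have := Nat.ceil_lt_add_one (show 0 ≤ X by linarith)
    rw [← hN] at this
    linarith
  have hNr : (1 : ℝ) ≤ N := by exact_mod_cast hN1'
  -- the logarithm of `N`
  have hsre : ‖s‖ ≤ 2 + |s.im| := by
    have h1 := Complex.norm_le_abs_re_add_abs_im s
    rw [abs_of_pos (by linarith : (0 : ℝ) < s.re)] at h1
    linarith
  have hls : Real.log (1 + ‖s‖) ≤ 1 + Real.log (2 + |s.im|) := by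
    have h1 : Real.log (1 + ‖s‖) ≤ Real.log (2 * (2 + |s.im|)) :=
      Real.log_le_log (by linarith) (by linarith [abs_nonneg s.im])
    rw [Real.log_mul (by norm_num) (by linarith [abs_nonneg s.im])] at h1
    have := Real.log_two_lt_d9
    linarith
  have hlQ : Real.log Q ≤ Real.log C0 + A0 * ℓ := by
    rw [hQ, Real.log_mul (by linarith) (by positivity), Real.log_pow, hq,
      Real.log_mul (by linarith) (by linarith)]
    have h1 : Real.log (dd L) + Real.log (Ideal.absNorm 𝔣) ≤ ℓ := by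
      rw [hℓ]
      unfold el
      linarith
    have := mul_le_mul_of_nonneg_left h1 hA0
    linarith
  have hlN : 1 + Real.log N ≤ K * ℓ := by
    have h1 : Real.log N ≤ Real.log (2 * X) := Real.log_le_log (by linarith) hN2
    rw [Real.log_mul (by norm_num) (by linarith)] at h1
    have h2 : Real.log X = 2 / δ * (Real.log Q + Real.log (1 + ‖s‖)) := by
      rw [hX, Real.log_rpow (by linarith), Real.log_mul (by linarith) (by linarith)]
    have h3 : Real.log Q + Real.log (1 + ‖s‖) ≤ (Real.log C0 + A0 + 2) * ℓ := by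
      have h4 : Real.log (2 + |s.im|) ≤ ℓ := by
        rw [hℓ]
        unfold el
        linarith
      nlinarith
    have h5 : 2 / δ * (Real.log Q + Real.log (1 + ‖s‖)) ≤ 2 / δ * ((Real.log C0 + A0 + 2) * ℓ) :=
      mul_le_mul_of_nonneg_left h3 (by positivity)
    have h6 := Real.log_two_lt_d9
    rw [hK]
    nlinarith
  have hlN0 : 0 ≤ Real.log N := Real.log_nonneg hNr
  -- the tail
  have hXt : (N : ℝ) ^ (-(δ / 2)) * (Q * (1 + ‖s‖)) ≤ 1 := by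
    have h1 : (N : ℝ) ^ (-(δ / 2)) ≤ X ^ (-(δ / 2)) :=
      Real.rpow_le_rpow_of_nonpos (by linarith) hNX (by linarith)
    have h2 : X ^ (-(δ / 2)) = (Q * (1 + ‖s‖))⁻¹ := by
      rw [hX, ← Real.rpow_mul (by linarith), ← Real.rpow_neg_one]
      congr 1
      field_simp
    rw [h2] at h1
    have h3 := mul_le_mul_of_nonneg_right h1 (show 0 ≤ Q * (1 + ‖s‖) by linarith)
    rwa [inv_mul_cancel₀ (by linarith : Q * (1 + ‖s‖) ≠ 0)] at h3
  refine ser_le (lb_sum χ.χ hz hb k hs) N fun M hM => ?_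
  have e1 : ∑ m ∈ Icc 1 M, LSeries.term (pw k (lbf χ.χ)) s m =
      ∑ m ∈ Icc 1 N, lbf χ.χ m * wt k s m + ∑ m ∈ Ioc N M, lbf χ.χ m * wt k s m := by
    rw [← sum_union]
    · have : Icc 1 M = Icc 1 N ∪ Ioc N M := by
        ext x
        simp only [mem_Icc, mem_union, mem_Ioc]
        omega
      rw [this]
      refine sum_congr rfl fun m hm => pw_term k _ s ?_
      rw [← this, mem_Icc] at hm
      omega
    · rw [disjoint_left]
      intro x hx hx'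
      rw [mem_Icc] at hx
      rw [mem_Ioc] at hx'
      omega
  rw [e1]
  have h1 : ‖∑ m ∈ Ioc N M, lbf χ.χ m * wt k s m‖ ≤ tc k δ := by
    refine (tail k hδ (by linarith) hs.le (lbf χ.χ) ha hN1' hM).trans ?_
    calc tc k δ * Q * (1 + ‖s‖) * (N : ℝ) ^ (-(δ / 2)) =
        tc k δ * ((N : ℝ) ^ (-(δ / 2)) * (Q * (1 + ‖s‖))) := by ring
      _ ≤ tc k δ * 1 := mul_le_mul_of_nonneg_left hXt htc
      _ = tc k δ := mul_one _
  have h2 : ‖∑ m ∈ Icc 1 N, lbf χ.χ m * wt k s m‖ ≤ K ^ (k + 1) * C1 * ℓ ^ (k + (A1 + 1)) := by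
    have h3 : ∀ m ∈ Icc 1 N, ‖lbf χ.χ m * wt k s m‖ ≤ Real.log N ^ k * (‖lbf χ.χ m‖ / m) := by
      intro m hm
      rw [mem_Icc] at hm
      have hm1 : (1 : ℝ) ≤ m := by exact_mod_cast hm.1
      have hm2 : (m : ℝ) ≤ N := by exact_mod_cast hm.2
      rw [norm_mul]
      have h4 := wt_norm k hs.le hm1
      have h5 : Real.log m ^ k ≤ Real.log N ^ k :=
        pow_le_pow_left₀ (Real.log_nonneg hm1) (Real.log_le_log (by linarith) hm2) k
      calc ‖lbf χ.χ m‖ * ‖wt k s m‖ ≤ ‖lbf χ.χ m‖ * (Real.log N ^ k / m) := by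
            apply mul_le_mul_of_nonneg_left _ (norm_nonneg _)
            exact h4.trans (div_le_div_of_nonneg_right h5 (by linarith))
        _ = _ := by ring
    refine (norm_sum_le _ _).trans ((sum_le_sum h3).trans ?_)
    rw [← mul_sum]
    have h6 := (lb_head (χ.χ : Ideal (𝓞 L) → ℂ) hb N).trans (hhsu L hTC (N : ℝ) hNr)
    have h7 : 1 + Real.log (dd L) ≤ ℓ := by
      rw [hℓ]
      unfold el
      linarith
    have h8 : (1 + Real.log (dd L)) ^ A1 ≤ ℓ ^ A1 := pow_le_pow_left₀ (by linarith) h7 A1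
    have h9 : Real.log N ^ k ≤ (K * ℓ) ^ k := pow_le_pow_left₀ hlN0 (by linarith) k
    calc Real.log N ^ k * ∑ m ∈ Icc 1 N, ‖lbf χ.χ m‖ / m
        ≤ (K * ℓ) ^ k * (C1 * ℓ ^ A1 * (K * ℓ)) := by
          apply mul_le_mul h9 (h6.trans _) (by positivity) (by positivity)
          apply mul_le_mul _ hlN (by linarith) (by positivity)
          exact mul_le_mul_of_nonneg_left h8 (by linarith)
      _ = K ^ (k + 1) * C1 * ℓ ^ (k + (A1 + 1)) := by ring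
  have h10 : 1 ≤ ℓ ^ (k + (A1 + 1)) := one_le_pow₀ (by linarith)
  calc _ ≤ ‖∑ m ∈ Icc 1 N, lbf χ.χ m * wt k s m‖ + ‖∑ m ∈ Ioc N M, lbf χ.χ m * wt k s m‖ :=
        norm_add_le _ _
    _ ≤ K ^ (k + 1) * C1 * ℓ ^ (k + (A1 + 1)) + tc k δ * 1 := by rw [mul_one]; exact add_le_add h2 h1
    _ ≤ K ^ (k + 1) * C1 * ℓ ^ (k + (A1 + 1)) + tc k δ * ℓ ^ (k + (A1 + 1)) := by
        gcongr
    _ = _ := by ring

end H1.PN
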